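import Pool.Agent.CayNR.GenMain

set_option autoImplicit false

namespace Pool.Agent.CayNR

open Finset

section greedy

open Classical in
lemma greedy {V : Type*} [Fintype V] (r : V → V → Prop) (hsymm : ∀ x y, r x y → r y x) (D : ℕ)
    (hD' : ∀ x, ({y | r x y} : Set V).ncard ≤ D) :
    ∃ a : V → Fin (D + 1), ∀ x y, x ≠ y → r x y → a x ≠ a y := by
  have hD : ∀ x, (univ.filter (fun y => r x y)).card ≤ D := by
    intro x
    refine le_trans (le_of_eq ?_) (hD' x)
    rw [← Set.ncard_coe_finset]
    simp
  have key : ∀ U : Finset V, ∃ a : V → Fin (D + 1), ∀ x ∈ U, ∀ y ∈ U, x ≠ y → r x y → a x ≠ a y := by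
    intro U
    induction U using Finset.induction_on with
    | empty => exact ⟨fun _ => 0, fun x hx => absurd hx (notMem_empty x)⟩
    | insert z U hz ih =>
      obtain ⟨a, ha⟩ := ih
      have hex : ∃ α : Fin (D + 1), α ∉ (univ.filter (fun y => r z y)).image a := by
        by_contra hcon
        push Not at hcon
        have h1 : (univ : Finset (Fin (D + 1))) ⊆ (univ.filter (fun y => r z y)).image a :=
          fun α _ => hcon α
        have h2 := card_le_card h1
        rw [card_univ, Fintype.card_fin] at h2
        have h3 := (card_image_le (s := univ.filter (fun y => r z y)) (f := a)).trans (hD z)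
        omega
      obtain ⟨α, hα⟩ := hex
      refine ⟨Function.update a z α, ?_⟩
      intro x hx y hy hxy hr
      rcases mem_insert.1 hx with rfl | hx'
      · rcases mem_insert.1 hy with rfl | hy'
        · exact absurd rfl hxy
        · rw [Function.update_self, Function.update_of_ne (Ne.symm hxy)]
          intro h
          exact hα (mem_image.2 ⟨y, by simpa using hr, h.symm⟩)
      · rcases mem_insert.1 hy with rfl | hy'
        · rw [Function.update_self, Function.update_of_ne hxy]
          intro h
          exact hα (mem_image.2 ⟨x, by simpa using hsymm _ _ hr, h⟩)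
        · have hxz : x ≠ z := fun h => hz (h ▸ hx')
          have hyz : y ≠ z := fun h => hz (h ▸ hy')
          rw [Function.update_of_ne hxz, Function.update_of_ne hyz]
          exact ha x hx' y hy' hxy hr
  obtain ⟨a, ha⟩ := key univ
  exact ⟨a, fun x y => ha x (mem_univ _) y (mem_univ _)⟩

/-- number of colours of the distance-2 colouring -/
def cA (Δ : ℕ) : ℕ := (Δ + 1) ^ 2 + 1

lemma exists_dist2 {V : Type*} [Fintype V] (G : SimpleGraph V) (Δ : ℕ)
    (hΔ : ∀ v, (G.neighborSet v).ncard ≤ Δ) : ∃ a : V → Fin (cA Δ), Dist2 G a := by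
  classical
  have hN : ∀ z, (univ.filter (fun y => G.Adj z y ∨ z = y)).card ≤ Δ + 1 := by
    intro z
    have h1 : (univ.filter (fun y => G.Adj z y ∨ z = y)) ⊆ insert z (G.neighborSet z).toFinite.toFinset := by
      intro y hy
      rw [mem_insert, Set.Finite.mem_toFinset, SimpleGraph.mem_neighborSet]
      rcases (mem_filter.1 hy).2 with h | h
      · exact Or.inr h
      · exact Or.inl h.symm
    refine (card_le_card h1).trans ((card_insert_le _ _).trans ?_)
    rw [← Set.ncard_eq_toFinset_card]
    exact Nat.add_le_add_right (hΔ z) 1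
  obtain ⟨a, ha⟩ := greedy (fun x y : V => ∃ z, (G.Adj z x ∨ z = x) ∧ (G.Adj z y ∨ z = y))
    (by rintro x y ⟨z, h1, h2⟩; exact ⟨z, h2, h1⟩) ((Δ + 1) ^ 2)
    (by
      intro x
      refine le_trans (Set.ncard_le_ncard (t := (((univ.filter (fun z => G.Adj x z ∨ x = z)).biUnion
        (fun z => univ.filter (fun y => G.Adj z y ∨ z = y)) : Finset V) : Set V)) ?_
          (Set.toFinite _)) ?_
      · rintro y ⟨z, h1, h2⟩
        rw [mem_coe, mem_biUnion]
        refine ⟨z, mem_filter.2 ⟨mem_univ _, ?_⟩, mem_filter.2 ⟨mem_univ _, h2⟩⟩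
        rcases h1 with h | h
        · exact Or.inl h.symm
        · exact Or.inr h.symm
      · rw [Set.ncard_coe_finset]
        refine (card_biUnion_le_card_mul _ _ _ (fun z _ => hN z)).trans ?_
        rw [sq]
        exact Nat.mul_le_mul_right _ (hN x))
  refine ⟨a, ?_⟩
  intro x y y' h1 h2 h3
  by_contra hne
  exact ha y y' hne ⟨x, h1, h2⟩ h3

end greedy

section blowup

/-- Some colouring of `G` with `N` colours has the following property: if
`x 0, ..., x (2 * t - 1)` is a stroll (consecutive vertices are equal or adjacent) in which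
the vertices `x i` and `x (i + t)` have the same colour for all `i < t`, then
`x i = x (i + t)` for all `i < t`. -/
def HasBoringColouring {V : Type*} (G : SimpleGraph V) (N : ℕ) : Prop :=
  ∃ c : V → Fin N, ∀ (t : ℕ) (x : ℕ → V),
    (∀ i, i + 1 < 2 * t → x i = x (i + 1) ∨ G.Adj (x i) (x (i + 1))) →
    (∀ i < t, c (x i) = c (x (i + t))) → ∀ i < t, x i = x (i + t)

lemma boring_of_card {V κ : Type*} [Fintype κ] (G : SimpleGraph V) (c0 : V → κ) (N : ℕ)
    (hN : Fintype.card κ ≤ N)
    (h : ∀ (t : ℕ) (x : ℕ → V), (∀ i, i + 1 < 2 * t → x i = x (i + 1) ∨ G.Adj (x i) (x (i + 1))) →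
      (∀ i < t, c0 (x i) = c0 (x (i + t))) → ∀ i < t, x i = x (i + t)) :
    HasBoringColouring G N := by
  obtain ⟨e, he⟩ : ∃ e : κ → Fin N, Function.Injective e := by
    have hcard : Fintype.card κ ≤ Fintype.card (Fin N) := by
      rw [Fintype.card_fin]; exact hN
    obtain ⟨e⟩ := Function.Embedding.nonempty_of_card_le hcard
    exact ⟨e, e.injective⟩
  exact ⟨fun x => e (c0 x), fun t x hx hc => h t x hx (fun i hi => he (hc i hi))⟩

/-- a colouring as in `HasBoringColouring` gives nonrepetitive colourings of the blow-ups -/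
theorem blowup {V : Type*} (G : SimpleGraph V) (N : ℕ) (hG : HasBoringColouring G N) (k : ℕ) :
    ∃ c : V × Fin k → Fin (k * N),
      ∀ (a b : V × Fin k)
        (p : (SimpleGraph.fromRel (fun x y : V × Fin k => G.Adj x.1 y.1 ∨ x.1 = y.1)).Walk a b),
        p.IsPath → ∀ t : ℕ, 0 < t → p.support.length = 2 * t →
          (p.support.map c).take t ≠ (p.support.map c).drop t := by
  classical
  obtain ⟨c0, hc0⟩ := hG
  obtain ⟨e, he⟩ : ∃ e : Fin k × Fin N → Fin (k * N), Function.Injective e :=
    ⟨finProdFinEquiv, finProdFinEquiv.injective⟩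
  refine ⟨fun z => e (z.2, c0 z.1), ?_⟩
  intro a b p hp t ht hlen heq
  have hlen' : p.length + 1 = 2 * t := by rw [← hlen, SimpleGraph.Walk.length_support]
  -- the colours of the two halves agree
  have hcol : ∀ i < t, e ((p.getVert i).2, c0 (p.getVert i).1) =
      e ((p.getVert (i + t)).2, c0 (p.getVert (i + t)).1) := by
    intro i hi
    have h1 := congrArg (fun l => l[i]?) heq
    simp only [List.getElem?_take, List.getElem?_drop, List.getElem?_map, hi, if_true] at h1
    rw [← SimpleGraph.Walk.getVert_eq_support_getElem? p (by omega),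
      ← SimpleGraph.Walk.getVert_eq_support_getElem? p (by omega)] at h1
    simp only [Option.map_some, Option.some.injEq] at h1
    rw [add_comm i t]
    exact h1
  have hcol' : ∀ i < t, (p.getVert i).2 = (p.getVert (i + t)).2 ∧
      c0 (p.getVert i).1 = c0 (p.getVert (i + t)).1 := by
    intro i hi
    have h1 := he (hcol i hi)
    exact Prod.mk.injEq _ _ _ _ ▸ h1
  have h1 := hc0 t (fun i => (p.getVert i).1)
    (by
      intro i hi
      have h1 := p.adj_getVert_succ (i := i) (by omega)
      rw [SimpleGraph.fromRel_adj] at h1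
      rcases h1.2 with (h2 | h2) | (h2 | h2)
      · exact Or.inr h2
      · exact Or.inl h2
      · exact Or.inr h2.symm
      · exact Or.inl h2.symm)
    (fun i hi => (hcol' i hi).2) 0 ht
  have h2 : p.getVert 0 = p.getVert (0 + t) := Prod.ext h1 (hcol' 0 ht).1
  have h3 := hp.getVert_injOn (x₁ := 0) (x₂ := 0 + t) (by
    simp only [Set.mem_ofPred_eq]; omega) (by simp only [Set.mem_ofPred_eq]; omega) h2
  omega

/-- subgraphs of strong products -/
theorem boring_prod {V ι : Type*} [Fintype ι] (G : SimpleGraph V) (W : ι → Type*)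
    (H : (j : ι) → SimpleGraph (W j)) (N : ι → ℕ) (f : (j : ι) → V → W j)
    (hf : ∀ x y, (∀ j, f j x = f j y) → x = y)
    (hadj : ∀ x y, G.Adj x y → ∀ j, f j x = f j y ∨ (H j).Adj (f j x) (f j y))
    (hH : ∀ j, HasBoringColouring (H j) (N j)) : HasBoringColouring G (∏ j, N j) := by
  classical
  choose c hc using hH
  refine boring_of_card G (fun x => fun j => c j (f j x)) _ (by simp) ?_
  intro t x hx hcc i hi
  apply hf
  intro j
  refine hc j t (fun i => f j (x i)) ?_ ?_ i hi
  · intro i hi
    rcases hx i hi with h | h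
    · exact Or.inl (by rw [h])
    · exact hadj _ _ h j
  · intro i hi
    exact congrFun (hcc i hi) j

/-- combination of a base colouring with the colouring of `general` -/
theorem stroll_of_base {V α κ : Type*} [Fintype V] [Fintype α] [Fintype κ] (G : SimpleGraph V)
    (a : V → α) (ha : Dist2 G a) (c0 : V → κ) (hc0a : ∀ x y, c0 x = c0 y → a x = a y)
    (g D : ℕ) (hD : 0 < D) (hV : Fintype.card V ≤ D ^ g)
    (hH : Cons G (fun x y => c0 x = c0 y) g) (N : ℕ)
    (hN : Fintype.card κ * (128 * (Fintype.card α * D) ^ 3) ≤ N) : HasBoringColouring G N := by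
  obtain ⟨c, hc⟩ := general G a ha (fun x y => c0 x = c0 y) (fun _ _ h => h.symm) hc0a g D hD hV hH
  refine boring_of_card G (fun x => (c0 x, c x)) N (by simpa using hN) ?_
  intro t x hx hcon
  simp only [Prod.mk.injEq] at hcon
  have ha' : ∀ i < t, a (x i) = a (x (i + t)) := fun i hi => hc0a _ _ (hcon i hi).1
  -- equality at one place gives equality everywhere
  have hprop : ∀ i, i + 1 < t → (x i = x (i + t) ↔ x (i + 1) = x (i + 1 + t)) := by
    intro i hi
    have h1 := hx i (by omega)
    have h2 := hx (i + t) (by omega)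
    have e : i + 1 + t = i + t + 1 := by omega
    have h3 := ha' (i + 1) hi
    have h4 := ha' i (by omega)
    rw [e] at h3 ⊢
    constructor
    · intro h
      rw [← h] at h2
      exact ha (x i) _ _ (h1.symm.imp_right (fun h => h)) (h2.symm.imp_right (fun h => h)) h3
    · intro h
      rw [← h] at h2
      refine ha (x (i + 1)) _ _ ?_ ?_ h4
      · rcases h1 with h1 | h1
        · exact Or.inr h1.symm
        · exact Or.inl h1.symm
      · rcases h2 with h2 | h2
        · exact Or.inr h2.symm
        · exact Or.inl h2.symm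
  intro i hi
  by_contra hne
  have hall : ∀ j < t, x j ≠ x (j + t) := by
    have hup : ∀ j, i + j < t → x (i + j) ≠ x (i + j + t) := by
      intro j
      induction j with
      | zero => intro _; exact hne
      | succ j ih =>
        intro hj h
        exact ih (by omega) ((hprop (i + j) (by omega)).2 h)
    have hdown : ∀ j ≤ i, x (i - j) ≠ x (i - j + t) := by
      intro j
      induction j with
      | zero => intro _; exact hne
      | succ j ih =>
        intro hj h
        have h1 := (hprop (i - (j + 1)) (by omega)).1 h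
        have e : i - (j + 1) + 1 = i - j := by omega
        rw [e] at h1
        exact ih (by omega) h1
    intro j hj
    rcases le_total i j with h | h
    · have := hup (j - i) (by omega)
      rwa [Nat.add_sub_cancel' h] at this
    · have := hdown (i - j) (by omega)
      rwa [Nat.sub_sub_self h] at this
  obtain ⟨j, hj, h⟩ := hc t (by omega) x hx hall (fun j hj => (hcon j hj).1)
  exact h (hcon j hj).2

end blowup

end Pool.Agent.CayNR
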