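import Pool.Agent.CayNR.ShortCycles

set_option autoImplicit false

namespace Pool.Agent.CayNR

open Finset

variable {V : Type*} (G : SimpleGraph V)

/-- Any two different cycles of length less than `g` are vertex-disjoint. -/
def ShortCyclesDisjoint (g : ℕ) : Prop :=
  ∀ (u v : V) (p : G.Walk u u) (q : G.Walk v v), p.IsCycle → q.IsCycle → p.length < g →
    q.length < g → (∃ w, w ∈ p.support ∧ w ∈ q.support) → ∀ e, e ∈ p.edges → e ∈ q.edges

variable {G}

def IsShort (g : ℕ) (c : Σ u : V, G.Walk u u) : Prop := c.2.IsCycle ∧ c.2.length < g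

/-- edges of the short cycles through `x` -/
def Es (G : SimpleGraph V) (g : ℕ) (x : V) : Set (Sym2 V) :=
  {e | ∃ c : Σ u : V, G.Walk u u, IsShort g c ∧ x ∈ c.2.support ∧ e ∈ c.2.edges}

open Classical in
noncomputable def repC (G : SimpleGraph V) (g : ℕ) (S : Set (Sym2 V)) : Option (Σ u : V, G.Walk u u) :=
  if h : ∃ c : Σ u : V, G.Walk u u, IsShort g c ∧ {e | e ∈ c.2.edges} = S then some h.choose
  else none

lemma es_eq {g : ℕ} (hd : ShortCyclesDisjoint G g) (c : Σ u : V, G.Walk u u) (hc : IsShort g c)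
    (x : V) (hx : x ∈ c.2.support) : Es G g x = {e | e ∈ c.2.edges} := by
  ext e
  constructor
  · rintro ⟨c', hc', hx', he⟩
    exact hd _ _ c'.2 c.2 hc'.1 hc.1 hc'.2 hc.2 ⟨x, hx', hx⟩ e he
  · intro he
    exact ⟨c, hc, hx, he⟩

lemma repC_some {g : ℕ} (S : Set (Sym2 V)) (c : Σ u : V, G.Walk u u) (h : repC G g S = some c) :
    IsShort g c ∧ {e | e ∈ c.2.edges} = S := by
  unfold repC at h
  split_ifs at h with h1
  rw [← Option.some.inj h]
  exact h1.choose_spec

lemma repC_exists {g : ℕ} (hd : ShortCyclesDisjoint G g) (c : Σ u : V, G.Walk u u)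
    (hc : IsShort g c) (x : V) (hx : x ∈ c.2.support) : ∃ c', repC G g (Es G g x) = some c' := by
  unfold repC
  have h : ∃ c : Σ u : V, G.Walk u u, IsShort g c ∧ {e | e ∈ c.2.edges} = Es G g x :=
    ⟨c, hc, (es_eq hd c hc x hx).symm⟩
  rw [dif_pos h]
  exact ⟨_, rfl⟩

lemma mem_rep {g : ℕ} (x : V) (c : Σ u : V, G.Walk u u) (h : repC G g (Es G g x) = some c) :
    x ∈ c.2.support := by
  obtain ⟨hc, hE⟩ := repC_some _ _ h
  have hnil := hc.1.not_nil
  have hstart : c.1 ∈ c.2.support := c.2.start_mem_support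
  obtain ⟨e, he, -⟩ := (SimpleGraph.Walk.mem_support_iff_exists_mem_edges_of_not_nil hnil).1 hstart
  have he' : e ∈ Es G g x := by rw [← hE]; exact he
  obtain ⟨c', hc', hx', -⟩ := he'
  obtain ⟨e', he1, he2⟩ :=
    (SimpleGraph.Walk.mem_support_iff_exists_mem_edges_of_not_nil hc'.1.not_nil).1 hx'
  have he3 : e' ∈ Es G g x := ⟨c', hc', hx', he1⟩
  rw [← hE] at he3
  exact (SimpleGraph.Walk.mem_support_iff_exists_mem_edges_of_not_nil hnil).2 ⟨e', he3, he2⟩

lemma rep_same {g : ℕ} (hd : ShortCyclesDisjoint G g) (x y : V) (c : Σ u : V, G.Walk u u)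
    (h : repC G g (Es G g x) = some c) (hy : y ∈ c.2.support) : repC G g (Es G g y) = some c := by
  obtain ⟨hc, hE⟩ := repC_some _ _ h
  rw [es_eq hd c hc y hy, hE]
  exact h

open Classical in
noncomputable def posIn (c : Σ u : V, G.Walk u u) (x : V) : ℕ :=
  if h : ∃ i, c.2.getVert i = x then Nat.find h else 0

lemma posIn_getVert (c : Σ u : V, G.Walk u u) (hc : c.2.IsCycle) (j : ℕ) (hj : j < c.2.length) :
    posIn c (c.2.getVert j) = j := by
  classical
  have h : ∃ i, c.2.getVert i = c.2.getVert j := ⟨j, rfl⟩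
  unfold posIn
  rw [dif_pos h]
  have h1 := Nat.find_spec h
  have h2 := Nat.find_min' h (m := j) rfl
  apply hc.getVert_injOn' _ _ h1
  · simp only [Set.mem_ofPred_eq]; omega
  · simp only [Set.mem_ofPred_eq]; omega

lemma exists_idx (c : Σ u : V, G.Walk u u) (hc : c.2.IsCycle) (x : V) (hx : x ∈ c.2.support) :
    ∃ j < c.2.length, c.2.getVert j = x := by
  obtain ⟨n, hn, hn2⟩ := SimpleGraph.Walk.mem_support_iff_exists_getVert.1 hx
  have h3 := hc.three_le_length
  rcases Nat.lt_or_ge n c.2.length with h | h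
  · exact ⟨n, h, hn⟩
  · refine ⟨0, by omega, ?_⟩
    rw [SimpleGraph.Walk.getVert_zero, ← hn, SimpleGraph.Walk.getVert_of_length_le _ h]

lemma posIn_lt (c : Σ u : V, G.Walk u u) (hc : c.2.IsCycle) (x : V) (hx : x ∈ c.2.support) :
    posIn c x < c.2.length ∧ c.2.getVert (posIn c x) = x := by
  obtain ⟨j, hj, rfl⟩ := exists_idx c hc x hx
  rw [posIn_getVert c hc j hj]
  exact ⟨hj, rfl⟩

/-- successor on the short cycle through `x` -/
noncomputable def succC (G : SimpleGraph V) (g : ℕ) (x : V) : V :=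
  match repC G g (Es G g x) with
  | some c => c.2.getVert (posIn c x + 1)
  | none => x

noncomputable def lenC (G : SimpleGraph V) (g : ℕ) (x : V) : ℕ :=
  match repC G g (Es G g x) with
  | some c => c.2.length
  | none => 0

noncomputable def posC (G : SimpleGraph V) (g : ℕ) (x : V) : ℕ :=
  match repC G g (Es G g x) with
  | some c => posIn c x
  | none => 0

lemma succC_some {g : ℕ} (x : V) (c : Σ u : V, G.Walk u u) (h : repC G g (Es G g x) = some c) :
    succC G g x = c.2.getVert (posIn c x + 1) := by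
  unfold succC; rw [h]

lemma lenC_some {g : ℕ} (x : V) (c : Σ u : V, G.Walk u u) (h : repC G g (Es G g x) = some c) :
    lenC G g x = c.2.length := by
  unfold lenC; rw [h]

lemma posC_some {g : ℕ} (x : V) (c : Σ u : V, G.Walk u u) (h : repC G g (Es G g x) = some c) :
    posC G g x = posIn c x := by
  unfold posC; rw [h]

lemma rep_of_adj {g : ℕ} (x : V) (h : G.Adj x (succC G g x)) :
    ∃ c, repC G g (Es G g x) = some c := by
  rcases hr : repC G g (Es G g x) with _ | c
  · unfold succC at h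
    rw [hr] at h
    exact absurd rfl h.ne
  · exact ⟨c, rfl⟩

lemma rep_facts {g : ℕ} (hd : ShortCyclesDisjoint G g) (x : V) (c : Σ u : V, G.Walk u u)
    (h : repC G g (Es G g x) = some c) :
    G.Adj x (succC G g x) ∧ repC G g (Es G g (succC G g x)) = some c ∧
      posC G g (succC G g x) = (posC G g x + 1) % lenC G g x ∧ posC G g x < lenC G g x := by
  have hc := (repC_some _ _ h).1.1
  obtain ⟨h1, h2⟩ := posIn_lt c hc x (mem_rep x c h)
  have h3 : succC G g x ∈ c.2.support := by
    rw [succC_some x c h]; exact SimpleGraph.Walk.getVert_mem_support _ _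
  have h4 := rep_same hd x _ c h h3
  refine ⟨?_, h4, ?_, ?_⟩
  · have := c.2.adj_getVert_succ h1
    rw [h2] at this
    rw [succC_some x c h]; exact this
  · rw [posC_some _ c h4, posC_some _ c h, lenC_some _ c h, succC_some x c h]
    rcases Nat.lt_or_ge (posIn c x + 1) c.2.length with h5 | h5
    · rw [posIn_getVert c hc _ h5, Nat.mod_eq_of_lt h5]
    · have h6 : posIn c x + 1 = c.2.length := by omega
      have h7 : c.2.getVert (posIn c x + 1) = c.2.getVert 0 := by
        rw [h6, SimpleGraph.Walk.getVert_length, SimpleGraph.Walk.getVert_zero]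
      rw [h7, posIn_getVert c hc 0 (by omega), h6, Nat.mod_self]
  · rw [posC_some _ c h, lenC_some _ c h]; exact h1

lemma succC_iter {g : ℕ} (hd : ShortCyclesDisjoint G g) (x : V) (c : Σ u : V, G.Walk u u)
    (h : repC G g (Es G g x) = some c) (i : ℕ) :
    repC G g (Es G g ((succC G g)^[i] x)) = some c ∧
      (succC G g)^[i] x = c.2.getVert ((posIn c x + i) % c.2.length) := by
  have hc := (repC_some _ _ h).1.1
  obtain ⟨h1, h2⟩ := posIn_lt c hc x (mem_rep x c h)
  induction i with
  | zero =>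
    refine ⟨h, ?_⟩
    rw [Function.iterate_zero, id, add_zero, Nat.mod_eq_of_lt h1, h2]
  | succ i ih =>
    obtain ⟨ih1, ih2⟩ := ih
    obtain ⟨f1, f2, f3, f4⟩ := rep_facts hd _ c ih1
    rw [Function.iterate_succ_apply']
    refine ⟨f2, ?_⟩
    obtain ⟨h3, h4⟩ := posIn_lt c hc _ (mem_rep _ c f2)
    rw [posC_some _ c f2, posC_some _ c ih1, lenC_some _ c ih1] at f3
    have h5 : posIn c ((succC G g)^[i] x) = (posIn c x + i) % c.2.length := by
      rw [ih2]
      exact posIn_getVert c hc _ (Nat.mod_lt _ (by omega))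
    rw [h5, Nat.mod_add_mod] at f3
    rw [← h4, f3, add_assoc]

lemma mkWalk (G : SimpleGraph V) : ∀ (n : ℕ) (x : ℕ → V) (v : V), x n = v →
    (∀ i < n, G.Adj (x i) (x (i + 1))) →
    ∃ p : G.Walk (x 0) v, p.length = n ∧ ∀ i ≤ n, p.getVert i = x i := by
  intro n
  induction n with
  | zero =>
    intro x v hv _
    subst hv
    refine ⟨SimpleGraph.Walk.nil, rfl, ?_⟩
    intro i hi
    obtain rfl : i = 0 := by omega
    rfl
  | succ n ih =>
    intro x v hv h
    obtain ⟨p, hp, hp2⟩ := ih (fun i => x (i + 1)) v hv (fun i hi => h (i + 1) (by omega))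
    refine ⟨SimpleGraph.Walk.cons (h 0 (by omega)) p, by simp [hp], ?_⟩
    intro i hi
    rcases Nat.eq_zero_or_pos i with h0 | h0
    · subst h0; rfl
    · obtain ⟨j, rfl⟩ : ∃ j, i = j + 1 := ⟨i - 1, by omega⟩
      rw [SimpleGraph.Walk.getVert_cons_succ]
      exact hp2 j (by omega)

lemma cyc_walk (m : ℕ) (x : ℕ → V) (h : IsCyc G m x) :
    ∃ p : G.Walk (x 0) (x 0), p.IsCycle ∧ p.length = m ∧ ∀ i ≤ m, p.getVert i = x i := by
  obtain ⟨hm, hadj, hcl, hinj⟩ := h
  obtain ⟨n, rfl⟩ : ∃ n, m = n + 1 := ⟨m - 1, by omega⟩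
  obtain ⟨p, hp, hp2⟩ := mkWalk G n (fun i => x (i + 1)) (x 0) hcl
    (fun i hi => hadj (i + 1) (by omega))
  refine ⟨SimpleGraph.Walk.cons (hadj 0 (by omega)) p, ?_, by simp [hp], ?_⟩
  · rw [SimpleGraph.Walk.cons_isCycle_iff]
    constructor
    · rw [← SimpleGraph.Walk.IsPath.getVert_injOn_iff]
      intro i hi j hj hij
      simp only [Set.mem_ofPred_eq, hp] at hi hj
      rw [hp2 i hi, hp2 j hj] at hij
      rcases Nat.lt_or_ge (i + 1) (n + 1) with h1 | h1
      · rcases Nat.lt_or_ge (j + 1) (n + 1) with h2 | h2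
        · have := hinj _ h1 _ h2 hij; omega
        · have e : j + 1 = n + 1 := by omega
          rw [e, hcl] at hij
          have := hinj _ h1 0 (by omega) hij; omega
      · have e : i + 1 = n + 1 := by omega
        rcases Nat.lt_or_ge (j + 1) (n + 1) with h2 | h2
        · rw [e, hcl] at hij
          have := hinj 0 (by omega) _ h2 hij; omega
        · omega
    · intro hmem
      rw [SimpleGraph.Walk.mk_mem_edges_iff_exists] at hmem
      obtain ⟨i, hi, he⟩ := hmem
      rw [hp] at hi
      rw [hp2 i hi.le, hp2 (i + 1) (by omega)] at he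
      rcases Sym2.eq_iff.1 he with ⟨h1, h2⟩ | ⟨h1, h2⟩
      · have := hinj (i + 1) (by omega) 0 (by omega) h1; omega
      · have := hinj (i + 1) (by omega) 1 (by omega) h1
        have h3 : i = 0 := by omega
        subst h3
        have := hinj 2 (by omega) 0 (by omega) h2; omega
  · intro i hi
    rcases Nat.eq_zero_or_pos i with h0 | h0
    · subst h0; rfl
    · obtain ⟨j, rfl⟩ : ∃ j, i = j + 1 := ⟨i - 1, by omega⟩
      rw [SimpleGraph.Walk.getVert_cons_succ]
      exact hp2 j (by omega)

/-- the rotation along the short cycles -/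
theorem exists_rot {g : ℕ} (hd : ShortCyclesDisjoint G g) : Nonempty (Rot G g) := by
  refine ⟨⟨succC G g, lenC G g, posC G g, ?_, ?_, ?_, ?_, ?_, ?_⟩⟩
  · intro y hy
    obtain ⟨c, hc⟩ := rep_of_adj y hy
    exact (rep_facts hd _ c (rep_facts hd y c hc).2.1).1
  · intro y hy
    obtain ⟨c, hc⟩ := rep_of_adj y hy
    rw [lenC_some _ c hc, lenC_some _ c (rep_facts hd y c hc).2.1]
  · intro y hy
    obtain ⟨c, hc⟩ := rep_of_adj y hy
    exact (rep_facts hd y c hc).2.2.1
  · intro y hy
    obtain ⟨c, hc⟩ := rep_of_adj y hy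
    exact (rep_facts hd y c hc).2.2.2
  · intro y hy
    obtain ⟨c, hc⟩ := rep_of_adj y hy
    have h1 := (succC_iter hd y c hc (lenC G g y)).2
    obtain ⟨h2, h3⟩ := posIn_lt c (repC_some _ _ hc).1.1 y (mem_rep y c hc)
    rw [h1, lenC_some y c hc, Nat.add_mod_right, Nat.mod_eq_of_lt h2, h3]
  · intro m x hmg hx
    obtain ⟨p, hpc, hpl, hpx⟩ := cyc_walk m x hx
    obtain ⟨hm, hadj, hcl, hinj⟩ := hx
    have hps : IsShort g (⟨x 0, p⟩ : Σ u : V, G.Walk u u) := ⟨hpc, by rw [hpl]; exact hmg⟩
    obtain ⟨c, hc⟩ := repC_exists hd ⟨x 0, p⟩ hps (x 0) p.start_mem_support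
    obtain ⟨hcs, hcE⟩ := repC_some _ _ hc
    have hE : {e | e ∈ c.2.edges} = {e | e ∈ p.edges} := by
      rw [hcE, es_eq hd ⟨x 0, p⟩ hps (x 0) p.start_mem_support]
    -- every step is a step of `c`
    have hstep : ∀ i < m, x (i + 1) = succC G g (x i) ∨ x i = succC G g (x (i + 1)) := by
      intro i hi
      have h1 : s(x i, x (i + 1)) ∈ p.edges := by
        rw [SimpleGraph.Walk.mk_mem_edges_iff_exists]
        exact ⟨i, by rw [hpl]; exact hi, by rw [hpx i hi.le, hpx (i + 1) hi]⟩
      have h2 : s(x i, x (i + 1)) ∈ c.2.edges := by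
        have : s(x i, x (i + 1)) ∈ {e | e ∈ c.2.edges} := by rw [hE]; exact h1
        exact this
      rw [SimpleGraph.Walk.mk_mem_edges_iff_exists] at h2
      obtain ⟨j, hj, he⟩ := h2
      rcases Sym2.eq_iff.1 he with ⟨h3, h4⟩ | ⟨h3, h4⟩
      · left
        have h5 : repC G g (Es G g (x i)) = some c := rep_same hd (x 0) _ c hc (by
          rw [← h3]; exact SimpleGraph.Walk.getVert_mem_support _ _)
        rw [succC_some _ c h5, ← h4, ← h3, posIn_getVert c hcs.1 j hj]
      · right
        have h5 : repC G g (Es G g (x (i + 1))) = some c := rep_same hd (x 0) _ c hc (by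
          rw [← h3]; exact SimpleGraph.Walk.getVert_mem_support _ _)
        rw [succC_some _ c h5, ← h4, ← h3, posIn_getVert c hcs.1 j hj]
    have hmem : ∀ i ≤ m, repC G g (Es G g (x i)) = some c := by
      intro i hi
      apply rep_same hd (x 0) _ c hc
      have h1 : x i ∈ p.support := by rw [← hpx i hi]; exact SimpleGraph.Walk.getVert_mem_support _ _
      obtain ⟨e, he1, he2⟩ :=
        (SimpleGraph.Walk.mem_support_iff_exists_mem_edges_of_not_nil hpc.not_nil).1 h1
      have he3 : e ∈ {e | e ∈ c.2.edges} := by rw [hE]; exact he1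
      exact (SimpleGraph.Walk.mem_support_iff_exists_mem_edges_of_not_nil hcs.1.not_nil).2
        ⟨e, he3, he2⟩
    have hsinj : ∀ i ≤ m, ∀ j ≤ m, succC G g (x i) = succC G g (x j) → x i = x j := by
      intro i hi j hj hij
      have hlen := hcs.1.three_le_length
      obtain ⟨L, hL⟩ : ∃ L, c.2.length = L + 1 := ⟨c.2.length - 1, by omega⟩
      have key : ∀ k ≤ m, (succC G g)^[L] (succC G g (x k)) = x k := by
        intro k hk
        have h1 := (succC_iter hd (x k) c (hmem k hk) (L + 1)).2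
        obtain ⟨h2, h3⟩ := posIn_lt c hcs.1 (x k) (mem_rep _ c (hmem k hk))
        rw [← hL, Nat.add_mod_right, Nat.mod_eq_of_lt h2, h3, hL, Function.iterate_succ_apply] at h1
        exact h1
      rw [← key i hi, ← key j hj, hij]
    have hne2 : ∀ i, i + 2 ≤ m → x i ≠ x (i + 2) := by
      intro i hi h
      rcases Nat.lt_or_ge (i + 2) m with h1 | h1
      · have := hinj i (by omega) (i + 2) h1 h; omega
      · have e : i + 2 = m := by omega
        rw [e, hcl] at h
        have := hinj i (by omega) 0 (by omega) h; omega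
    have hA : ∀ i, i + 1 < m → x (i + 1) = succC G g (x i) → x (i + 2) = succC G g (x (i + 1)) := by
      intro i hi h
      rcases hstep (i + 1) hi with h1 | h1
      · exact h1
      · exfalso
        apply hne2 i (by omega)
        apply hsinj i (by omega) (i + 2) (by omega)
        rw [← h, ← h1]
    have hB : ∀ i, i + 1 < m → x i = succC G g (x (i + 1)) → x (i + 1) = succC G g (x (i + 2)) := by
      intro i hi h
      rcases hstep (i + 1) hi with h1 | h1
      · exfalso
        apply hne2 i (by omega)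
        rw [h, h1]
      · exact h1
    rcases hstep 0 (by omega) with h0 | h0
    · left
      intro i
      induction i with
      | zero => intro _; exact h0
      | succ i ih => intro hi; exact hA i hi (ih (by omega))
    · right
      intro i
      induction i with
      | zero => intro _; exact h0
      | succ i ih => intro hi; exact hB i hi (ih (by omega))

/-- number of colours for maximum degree `Δ` and at most `D ^ g` vertices -/
def boundC (Δ D : ℕ) : ℕ := 1024 * (cA Δ + 1) * cA Δ ^ 4 * D ^ 3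

theorem disjointCycles {V : Type*} [Fintype V] (G : SimpleGraph V) (g D Δ : ℕ)
    (hD : 0 < D) (hV : Fintype.card V ≤ D ^ g) (hΔ : ∀ v, (G.neighborSet v).ncard ≤ Δ)
    (hd : ShortCyclesDisjoint G g) :
    HasBoringColouring G (boundC Δ D) := by
  classical
  obtain ⟨a, ha⟩ := exists_dist2 G Δ hΔ
  obtain ⟨ρ⟩ := exists_rot hd
  refine stroll_of_base G a ha (markCol ρ a)
    (fun x y h => (Prod.mk.inj h).1) g D hD hV (cons_of_rot ρ a ha) _ (le_of_eq ?_)
  simp only [Fintype.card_prod, Fintype.card_option, Fintype.card_fin, Fintype.card_bool, boundC]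
  ring

end Pool.Agent.CayNR
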