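import Pool.Agent.CayNR.General

set_option autoImplicit false

namespace Pool.Agent.CayNR

open Finset

section main

variable {V α : Type*} [Fintype V] [Fintype α] (G : SimpleGraph V) (a : V → α)

/-- loops of length less than `g` are consistent for the relation `R` -/
def Cons (R : V → V → Prop) (g : ℕ) : Prop :=
  ∀ (m : ℕ) (x y : ℕ → V), 3 ≤ m → m < g → (∀ i < m, G.Adj (x i) (x (i + 1))) → x m = x 0 →
    (∀ i < m, ∀ j < m, x i = x j → i = j) → (∀ i < m, G.Adj (y i) (y (i + 1))) →
    (∀ i < m, ∀ j < m, y i = y j → i = j) → (∀ i ≤ m, R (x i) (y i)) → y m = y 0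

omit [Fintype V] [Fintype α] in
lemma caseB (ha : Dist2 G a) (R : V → V → Prop)
    (hRa : ∀ x y, R x y → a x = a y) (g : ℕ) (hH : Cons G R g) {β : Type*} (c : V → β)
    (hc : ∀ e : EvG V, ValidG G a g e → ∃ i, c (e.2.1 i) ≠ c (e.2.2 i))
    (P Q : ℕ → V) (i d : ℕ) (hd : 0 < d)
    (hP : ∀ j, i ≤ j → j < i + d → G.Adj (P j) (P (j + 1)))
    (hQ : ∀ j, i ≤ j → j < i + d → G.Adj (Q j) (Q (j + 1)))
    (hR : ∀ j, i ≤ j → j ≤ i + d → R (P j) (Q j))
    (hcc : ∀ j, i ≤ j → j ≤ i + d → c (P j) = c (Q j))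
    (hne : ∀ j, i ≤ j → j ≤ i + d → P j ≠ Q j)
    (hPi : ∀ j k, i ≤ j → j < k → k ≤ i + d → k - j < d → P j ≠ P k)
    (hQi : ∀ j k, i ≤ j → j < k → k ≤ i + d → k - j < d → Q j ≠ Q k)
    (hcl : P i = P (i + d)) : Q i = Q (i + d) := by
  have hinjP : ∀ j < d, ∀ k < d, P (i + j) = P (i + k) → j = k := by
    intro j hj k hk h
    rcases lt_trichotomy j k with h1 | h1 | h1
    · exact absurd h (hPi _ _ (by omega) (by omega) (by omega) (by omega))
    · exact h1
    · exact absurd h.symm (hPi _ _ (by omega) (by omega) (by omega) (by omega))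
  have hinjQ : ∀ j < d, ∀ k < d, Q (i + j) = Q (i + k) → j = k := by
    intro j hj k hk h
    rcases lt_trichotomy j k with h1 | h1 | h1
    · exact absurd h (hQi _ _ (by omega) (by omega) (by omega) (by omega))
    · exact h1
    · exact absurd h.symm (hQi _ _ (by omega) (by omega) (by omega) (by omega))
  rcases Nat.lt_or_ge d g with hdg | hdg
  · rcases Nat.lt_or_ge d 3 with hd3 | hd3
    · rcases (show d = 1 ∨ d = 2 by omega) with rfl | rfl
      · exact absurd hcl (hP i le_rfl (by omega)).ne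
      · have h1 := hQ i le_rfl (by omega)
        have h2 := hQ (i + 1) (by omega) (by omega)
        refine ha (Q (i + 1)) _ _ (Or.inl h1.symm) (Or.inl h2) ?_
        rw [← hRa _ _ (hR i le_rfl (by omega)), ← hRa _ _ (hR (i + 1 + 1) (by omega) (by omega)), hcl]
    · have := hH d (fun j => P (i + j)) (fun j => Q (i + j)) hd3 hdg
        (fun j hj => hP (i + j) (by omega) (by omega)) (by simpa using hcl.symm) hinjP
        (fun j hj => hQ (i + j) (by omega) (by omega)) hinjQ
        (fun j hj => hR (i + j) (by omega) (by omega))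
      simpa using this.symm
  · exfalso
    obtain ⟨n, rfl⟩ : ∃ n, d = n + 1 := ⟨d - 1, by omega⟩
    have hv : ValidG G a g (⟨n, (fun j : Fin (n + 1) => P (i + j), fun j : Fin (n + 1) => Q (i + j))⟩ :
        EvG V) := by
      refine ⟨?_, ?_, ?_, ?_, ?_, ?_, Or.inl hdg⟩
      · intro j k h
        exact Fin.ext (hinjP j j.2 k k.2 h)
      · intro j k h
        exact Fin.ext (hinjQ j j.2 k k.2 h)
      · intro j
        exact hne _ (by omega) (by omega)
      · intro j
        exact hRa _ _ (hR _ (by omega) (by omega))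
      · intro j hj
        simp only at hj ⊢
        rw [ev_fun (fun j => P (i + j)) j (by omega), ev_fun (fun j => P (i + j)) (j + 1) (by omega)]
        exact hP _ (by omega) (by omega)
      · intro j hj
        simp only at hj ⊢
        rw [ev_fun (fun j => Q (i + j)) j (by omega), ev_fun (fun j => Q (i + j)) (j + 1) (by omega)]
        exact hQ _ (by omega) (by omega)
    obtain ⟨j, hj⟩ := hc _ hv
    exact hj (hcc _ (by omega) (by omega))

open Classical in
theorem general (ha : Dist2 G a) (R : V → V → Prop) (hRs : ∀ x y, R x y → R y x)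
    (hRa : ∀ x y, R x y → a x = a y) (g D : ℕ) (hD : 0 < D) (hV : Fintype.card V ≤ D ^ g)
    (hH : Cons G R g) :
    ∃ c : V → Fin (128 * (Fintype.card α * D) ^ 3), ∀ (t : ℕ), 0 < t → ∀ x : ℕ → V,
      (∀ i, i + 1 < 2 * t → x i = x (i + 1) ∨ G.Adj (x i) (x (i + 1))) →
      (∀ i < t, x i ≠ x (i + t)) → (∀ i < t, R (x i) (x (i + t))) →
      ∃ i < t, c (x i) ≠ c (x (i + t)) := by
  rcases isEmpty_or_nonempty V with hVe | hVn
  · exact ⟨fun v => hVe.elim v, fun t ht x => hVe.elim (x 0)⟩
  have hαn : Nonempty α := hVn.map a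
  obtain ⟨c, hc⟩ := exists_colouringG G a ha g D hD hV
  refine ⟨c, ?_⟩
  intro t ht x hx hne hR
  by_contra hcon
  push Not at hcon
  -- both coordinates move at the same time
  have hmove : ∀ i, i + 1 < t →
      (x i = x (i + 1) ∧ x (i + t) = x (i + 1 + t)) ∨
      (G.Adj (x i) (x (i + 1)) ∧ G.Adj (x (i + t)) (x (i + 1 + t))) := by
    intro i hi
    have e4 : i + 1 + t = i + t + 1 := by omega
    have c1 := hRa _ _ (hR i (by omega))
    have c2 := hRa _ _ (hR (i + 1) hi)
    rw [e4] at c2 ⊢
    rcases hx i (by omega) with h1 | h1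
    · left
      refine ⟨h1, ?_⟩
      have h2 := hx (i + t) (by omega)
      refine ha (x (i + t)) _ _ (Or.inr rfl) h2.symm ?_
      rw [← c1, ← c2, h1]
    · right
      refine ⟨h1, ?_⟩
      rcases hx (i + t) (by omega) with h2 | h2
      · exfalso
        have : x i = x (i + 1) := by
          refine ha (x i) _ _ (Or.inr rfl) (Or.inl h1) ?_
          rw [c1, c2, h2]
        exact h1.ne this
      · exact h2
  -- the graph of visited pairs
  let H : SimpleGraph (V × V) :=
    { Adj := fun u v => (G.Adj u.1 v.1 ∧ G.Adj u.2 v.2) ∧ (∃ i < t, x i = u.1 ∧ x (i + t) = u.2) ∧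
        ∃ i < t, x i = v.1 ∧ x (i + t) = v.2
      symm := ⟨fun u v h => ⟨⟨h.1.1.symm, h.1.2.symm⟩, h.2.2, h.2.1⟩⟩
      loopless := ⟨fun u h => G.loopless.irrefl u.1 h.1.1⟩ }
  have hreach : ∀ i < t, H.Reachable (x 0, x (0 + t)) (x i, x (i + t)) := by
    intro i
    induction i with
    | zero => intro _; exact SimpleGraph.Reachable.refl _
    | succ i ih =>
      intro hi
      have h1 := ih (by omega)
      rcases hmove i hi with ⟨h2, h3⟩ | ⟨h2, h3⟩
      · rw [← h2, ← h3]; exact h1
      · exact h1.trans (SimpleGraph.Adj.reachable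
          ⟨⟨h2, h3⟩, ⟨i, by omega, rfl, rfl⟩, ⟨i + 1, hi, rfl, rfl⟩⟩)
  obtain ⟨q0⟩ := hreach (t - 1) (by omega)
  let q := q0.toPath
  set n := q.1.length with hn
  let P : ℕ → V := fun j => (q.1.getVert j).1
  let Q : ℕ → V := fun j => (q.1.getVert j).2
  have hvis : ∀ j ≤ n, ∃ i < t, x i = P j ∧ x (i + t) = Q j := by
    intro j hj
    rcases Nat.eq_zero_or_pos j with rfl | hj0
    · refine ⟨0, ht, ?_, ?_⟩
      · simp only [P, SimpleGraph.Walk.getVert_zero]
      · simp only [Q, SimpleGraph.Walk.getVert_zero]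
    · obtain ⟨k, rfl⟩ : ∃ k, j = k + 1 := ⟨j - 1, by omega⟩
      exact (q.1.adj_getVert_succ (i := k) (by omega)).2.2
  have hPadj : ∀ j < n, G.Adj (P j) (P (j + 1)) := fun j hj => (q.1.adj_getVert_succ hj).1.1
  have hQadj : ∀ j < n, G.Adj (Q j) (Q (j + 1)) := fun j hj => (q.1.adj_getVert_succ hj).1.2
  have hRPQ : ∀ j ≤ n, R (P j) (Q j) := by
    intro j hj
    obtain ⟨i, hi, h1, h2⟩ := hvis j hj
    rw [← h1, ← h2]; exact hR i hi
  have hcPQ : ∀ j ≤ n, c (P j) = c (Q j) := by
    intro j hj
    obtain ⟨i, hi, h1, h2⟩ := hvis j hj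
    rw [← h1, ← h2]; exact hcon i hi
  have hnePQ : ∀ j ≤ n, P j ≠ Q j := by
    intro j hj
    obtain ⟨i, hi, h1, h2⟩ := hvis j hj
    rw [← h1, ← h2]; exact hne i hi
  have hinj : ∀ j ≤ n, ∀ k ≤ n, P j = P k → Q j = Q k → j = k := by
    intro j hj k hk h1 h2
    exact q.2.getVert_injOn (x₁ := j) (x₂ := k) hj hk (Prod.ext h1 h2)
  have hPn : P n = x (t - 1) := by
    simp only [P, hn, SimpleGraph.Walk.getVert_length]
  have hQ0 : Q 0 = x t := by
    simp only [Q, SimpleGraph.Walk.getVert_zero, zero_add]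
  by_cases hB : ∃ d, 0 < d ∧ ∃ i, i + d ≤ n ∧ (P i = P (i + d) ∨ Q i = Q (i + d))
  · -- a coincidence
    have hfind := Nat.find_spec hB
    have hmin := fun m hm => Nat.find_min hB (m := m) hm
    set d := Nat.find hB with hd
    obtain ⟨hd0, i, hid, hor⟩ := hfind
    have hPi : ∀ j k, i ≤ j → j < k → k ≤ i + d → k - j < d → P j ≠ P k := by
      intro j k hj hk hkd hlt h
      refine hmin (k - j) hlt ⟨by omega, j, by omega, Or.inl ?_⟩
      rw [Nat.add_sub_cancel' hk.le]; exact h
    have hQi : ∀ j k, i ≤ j → j < k → k ≤ i + d → k - j < d → Q j ≠ Q k := by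
      intro j k hj hk hkd hlt h
      refine hmin (k - j) hlt ⟨by omega, j, by omega, Or.inr ?_⟩
      rw [Nat.add_sub_cancel' hk.le]; exact h
    have hboth : P i = P (i + d) ∧ Q i = Q (i + d) := by
      rcases hor with h | h
      · refine ⟨h, caseB G a ha R hRa g hH c hc P Q i d hd0 (fun j _ h2 => hPadj j (by omega))
          (fun j _ h2 => hQadj j (by omega)) (fun j _ h2 => hRPQ j (by omega))
          (fun j _ h2 => hcPQ j (by omega)) (fun j _ h2 => hnePQ j (by omega)) hPi hQi h⟩
      · refine ⟨caseB G a ha R hRa g hH c hc Q P i d hd0 (fun j _ h2 => hQadj j (by omega))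
          (fun j _ h2 => hPadj j (by omega)) (fun j _ h2 => hRs _ _ (hRPQ j (by omega)))
          (fun j _ h2 => (hcPQ j (by omega)).symm) (fun j _ h2 => (hnePQ j (by omega)).symm)
          hQi hPi h, h⟩
    have := hinj i (by omega) (i + d) hid hboth.1 hboth.2
    omega
  · -- no coincidence
    push Not at hB
    have hPinj : ∀ j ≤ n, ∀ k ≤ n, P j = P k → j = k := by
      intro j hj k hk h
      rcases lt_trichotomy j k with h1 | h1 | h1
      · have := (hB (k - j) (by omega) j (by omega)).1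
        rw [Nat.add_sub_cancel' h1.le] at this
        exact absurd h this
      · exact h1
      · have := (hB (j - k) (by omega) k (by omega)).1
        rw [Nat.add_sub_cancel' h1.le] at this
        exact absurd h.symm this
    have hQinj : ∀ j ≤ n, ∀ k ≤ n, Q j = Q k → j = k := by
      intro j hj k hk h
      rcases lt_trichotomy j k with h1 | h1 | h1
      · have := (hB (k - j) (by omega) j (by omega)).2
        rw [Nat.add_sub_cancel' h1.le] at this
        exact absurd h this
      · exact h1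
      · have := (hB (j - k) (by omega) k (by omega)).2
        rw [Nat.add_sub_cancel' h1.le] at this
        exact absurd h.symm this
    have hv : ValidG G a g (⟨n, (fun j : Fin (n + 1) => P j, fun j : Fin (n + 1) => Q j)⟩ :
        EvG V) := by
      refine ⟨?_, ?_, ?_, ?_, ?_, ?_, Or.inr ?_⟩
      · intro j k h
        exact Fin.ext (hPinj j (Nat.le_of_lt_succ j.2) k (Nat.le_of_lt_succ k.2) h)
      · intro j k h
        exact Fin.ext (hQinj j (Nat.le_of_lt_succ j.2) k (Nat.le_of_lt_succ k.2) h)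
      · intro j
        exact hnePQ _ (Nat.le_of_lt_succ j.2)
      · intro j
        exact hRa _ _ (hRPQ _ (Nat.le_of_lt_succ j.2))
      · intro j hj
        simp only at hj ⊢
        rw [ev_fun (fun j => P j) j (by omega), ev_fun (fun j => P j) (j + 1) (by omega)]
        exact hPadj _ (by omega)
      · intro j hj
        simp only at hj ⊢
        rw [ev_fun (fun j => Q j) j (by omega), ev_fun (fun j => Q j) (j + 1) (by omega)]
        exact hQadj _ (by omega)
      · simp only
        rw [ev_fun (fun j => P j) n le_rfl, ev_fun (fun j => Q j) 0 (Nat.zero_le _)]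
        have h1 := hx (t - 1) (by omega)
        rw [Nat.sub_add_cancel ht] at h1
        rw [hPn, hQ0]
        exact h1.symm
    obtain ⟨j, hj⟩ := hc _ hv
    exact hj (hcPQ _ (Nat.le_of_lt_succ j.2))

end main

end Pool.Agent.CayNR
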