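import Pool.Agent.CayNR.LLL

set_option autoImplicit false

namespace Pool.Agent.CayNR

open Finset

section indices

variable {ι V : Type*} [Fintype ι]

open Classical in
lemma indepIdx (p q : ι → V) (hp : Function.Injective p) (hq : Function.Injective q)
    (hpq : ∀ i, p i ≠ q i) (i0 : ι) :
    ∃ M : Finset ι, i0 ∈ M ∧ (∀ i ∈ M, ∀ j ∈ M, q i ≠ p j) ∧ Fintype.card ι ≤ 3 * M.card := by
  let 𝓘 : Finset (Finset ι) := univ.filter (fun M => i0 ∈ M ∧ ∀ i ∈ M, ∀ j ∈ M, q i ≠ p j)
  have hne : 𝓘.Nonempty := by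
    refine ⟨{i0}, ?_⟩
    simp only [𝓘, mem_filter, mem_univ, true_and, mem_singleton, forall_eq]
    exact (hpq i0).symm
  obtain ⟨M, hM, hmax⟩ := exists_max_image 𝓘 card hne
  simp only [𝓘, mem_filter, mem_univ, true_and] at hM
  obtain ⟨hiM, hind⟩ := hM
  refine ⟨M, hiM, hind, ?_⟩
  have hcov : (univ : Finset ι) ⊆ M ∪ ((univ.filter (fun x => q x ∈ M.image p)) ∪
      (univ.filter (fun x => p x ∈ M.image q))) := by
    intro x _
    by_contra hcon
    simp only [mem_union, mem_filter, mem_univ, true_and, mem_image, not_or, not_exists,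
      not_and] at hcon
    obtain ⟨hxM, h1, h2⟩ := hcon
    have hins : insert x M ∈ 𝓘 := by
      simp only [𝓘, mem_filter, mem_univ, true_and]
      refine ⟨mem_insert_of_mem hiM, ?_⟩
      intro i hi j hj
      rcases mem_insert.1 hi with hi' | hi'
      · rcases mem_insert.1 hj with hj' | hj'
        · rw [hi', hj']; exact (hpq _).symm
        · rw [hi']; exact fun h => h1 j hj' h.symm
      · rcases mem_insert.1 hj with hj' | hj'
        · rw [hj']; exact fun h => h2 i hi' h
        · exact hind i hi' j hj'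
    have := hmax _ hins
    rw [card_insert_of_notMem hxM] at this
    omega
  have c1 : (univ.filter (fun x => q x ∈ M.image p)).card ≤ M.card := by
    refine le_trans (card_le_card_of_injOn (t := M.image p) q ?_ hq.injOn) card_image_le
    intro x hx
    simpa using hx
  have c2 : (univ.filter (fun x => p x ∈ M.image q)).card ≤ M.card := by
    refine le_trans (card_le_card_of_injOn (t := M.image q) p ?_ hp.injOn) card_image_le
    intro x hx
    simpa using hx
  have h := card_le_card hcov
  rw [card_univ] at h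
  have h2 := card_union_le M ((univ.filter (fun x => q x ∈ M.image p)) ∪
      (univ.filter (fun x => p x ∈ M.image q)))
  have h3 := card_union_le (univ.filter (fun x => q x ∈ M.image p))
      (univ.filter (fun x => p x ∈ M.image q))
  omega

open Classical in
lemma exists_det' (p q : ι → V) (hp : Function.Injective p) (hq : Function.Injective q)
    (hpq : ∀ i, p i ≠ q i) (z : V) (hz : z ∈ univ.image p ∪ univ.image q) :
    ∃ T ⊆ univ.image p ∪ univ.image q, z ∈ T ∧ Fintype.card ι ≤ 3 * T.card ∧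
      ∀ (β : Type) (c c' : V → β), (∀ i, c (p i) = c (q i)) → (∀ i, c' (p i) = c' (q i)) →
        (∀ x ∈ univ.image p ∪ univ.image q, x ∉ T → c x = c' x) → ∀ x ∈ T, c x = c' x := by
  rcases mem_union.1 hz with h | h
  · obtain ⟨i0, -, rfl⟩ := mem_image.1 h
    obtain ⟨M, hiM, hind, hcard⟩ := indepIdx p q hp hq hpq i0
    refine ⟨M.image p, (image_subset_image (subset_univ M)).trans subset_union_left,
      mem_image_of_mem _ hiM, by rwa [card_image_of_injective _ hp], ?_⟩
    intro β c c' h1 h2 h3 x hx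
    obtain ⟨i, hi, rfl⟩ := mem_image.1 hx
    rw [h1, h2]
    apply h3 _ (mem_union_right _ (mem_image_of_mem _ (mem_univ _)))
    intro hc
    obtain ⟨j, hj, hj2⟩ := mem_image.1 hc
    exact hind i hi j hj hj2.symm
  · obtain ⟨i0, -, rfl⟩ := mem_image.1 h
    obtain ⟨M, hiM, hind, hcard⟩ := indepIdx p q hp hq hpq i0
    refine ⟨M.image q, (image_subset_image (subset_univ M)).trans subset_union_right,
      mem_image_of_mem _ hiM, by rwa [card_image_of_injective _ hq], ?_⟩
    intro β c c' h1 h2 h3 x hx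
    obtain ⟨i, hi, rfl⟩ := mem_image.1 hx
    rw [← h1, ← h2]
    apply h3 _ (mem_union_left _ (mem_image_of_mem _ (mem_univ _)))
    intro hc
    obtain ⟨j, hj, hj2⟩ := mem_image.1 hc
    exact hind j hj i hi hj2

end indices

section walks

variable {V α : Type*} (G : SimpleGraph V) (a : V → α)

/-- all vertices of a closed neighbourhood get different colours -/
def Dist2 : Prop := ∀ x y y', (G.Adj x y ∨ x = y) → (G.Adj x y' ∨ x = y') → a y = a y' → y = y'

lemma walk_det (ha : Dist2 G a) (m : ℕ) (p p' : ℕ → V) (hp : ∀ j < m, G.Adj (p j) (p (j + 1)))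
    (hp' : ∀ j < m, G.Adj (p' j) (p' (j + 1))) (hc : ∀ j ≤ m, a (p j) = a (p' j)) (i : ℕ)
    (hi : i ≤ m) (h : p i = p' i) : ∀ j ≤ m, p j = p' j := by
  have up : ∀ k, i + k ≤ m → p (i + k) = p' (i + k) := by
    intro k
    induction k with
    | zero => intro _; exact h
    | succ k ih =>
      intro hk
      have h1 := ih (by omega)
      have h2 := hp (i + k) (by omega)
      have h3 := hp' (i + k) (by omega)
      rw [← h1] at h3
      exact ha _ _ _ (Or.inl h2) (Or.inl h3) (hc _ hk)
  have down : ∀ k ≤ i, p (i - k) = p' (i - k) := by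
    intro k
    induction k with
    | zero => intro _; exact h
    | succ k ih =>
      intro hk
      have h1 := ih (by omega)
      have h2 := hp (i - (k + 1)) (by omega)
      have h3 := hp' (i - (k + 1)) (by omega)
      have e : i - (k + 1) + 1 = i - k := by omega
      rw [e] at h2 h3
      rw [← h1] at h3
      exact ha _ _ _ (Or.inl h2.symm) (Or.inl h3.symm) (hc _ (by omega))
  intro j hj
  rcases le_total i j with h1 | h1
  · have := up (j - i) (by omega)
    rwa [Nat.add_sub_cancel' h1] at this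
  · have := down (i - j) (by omega)
    rwa [Nat.sub_sub_self h1] at this

/-- evaluation at natural numbers -/
def ev {m : ℕ} (p : Fin (m + 1) → V) (j : ℕ) : V := p ⟨min j m, by omega⟩

lemma ev_coe {m : ℕ} (p : Fin (m + 1) → V) (i : Fin (m + 1)) : ev p i = p i := by
  unfold ev
  congr 1
  ext
  simp only
  omega

lemma ev_fun {m : ℕ} (f : ℕ → V) (j : ℕ) (hj : j ≤ m) : ev (fun i : Fin (m + 1) => f i) j = f j := by
  unfold ev
  simp only [Nat.min_eq_left hj]

abbrev EvG (V : Type*) := Σ m : ℕ, (Fin (m + 1) → V) × (Fin (m + 1) → V)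

/-- pairs of matched walks -/
def ValidG (g : ℕ) (e : EvG V) : Prop :=
  Function.Injective e.2.1 ∧ Function.Injective e.2.2 ∧ (∀ i, e.2.1 i ≠ e.2.2 i) ∧
  (∀ i, a (e.2.1 i) = a (e.2.2 i)) ∧
  (∀ j < e.1, G.Adj (ev e.2.1 j) (ev e.2.1 (j + 1))) ∧
  (∀ j < e.1, G.Adj (ev e.2.2 j) (ev e.2.2 (j + 1))) ∧
  (g ≤ e.1 + 1 ∨ (G.Adj (ev e.2.1 e.1) (ev e.2.2 0) ∨ ev e.2.1 e.1 = ev e.2.2 0))

open Classical in
noncomputable def DG (e : EvG V) : Finset V := univ.image e.2.1 ∪ univ.image e.2.2

open Classical in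
noncomputable def TG (g : ℕ) (e : EvG V) (z : V) : Finset V :=
  if h : ValidG G a g e ∧ z ∈ DG e then
    (exists_det' e.2.1 e.2.2 h.1.1 h.1.2.1 h.1.2.2.1 z h.2).choose
  else {z}

open Classical in
lemma exists_posG (e : EvG V) (z : V) (hz : z ∈ DG e) :
    ∃ ib : Fin (e.1 + 1) × Bool, z = (if ib.2 then e.2.1 ib.1 else e.2.2 ib.1) := by
  unfold DG at hz
  rcases mem_union.1 hz with h | h
  · obtain ⟨i, -, rfl⟩ := mem_image.1 h
    exact ⟨(i, true), by simp⟩
  · obtain ⟨i, -, rfl⟩ := mem_image.1 h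
    exact ⟨(i, false), by simp⟩

open Classical in
noncomputable def posG (z : V) (e : EvG V) : Fin (e.1 + 1) × Bool :=
  if h : z ∈ DG e then (exists_posG e z h).choose else (0, true)

lemma posG_spec (z : V) (e : EvG V) (hz : z ∈ DG e) :
    z = (if (posG z e).2 then e.2.1 (posG z e).1 else e.2.2 (posG z e).1) := by
  unfold posG
  rw [dif_pos hz]
  exact (exists_posG e z hz).choose_spec

noncomputable def labG (D : ℕ) (ψ : (m : ℕ) → V → Fin (D ^ (m + 1))) (z : V) (e : EvG V) :
    Σ m : ℕ, ((Fin (m + 1) → α) × Fin (m + 1) × Bool × Fin (D ^ (m + 1))) :=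
  ⟨e.1, (fun i => a (e.2.1 i), (posG z e).1, (posG z e).2,
    ψ e.1 (if (posG z e).2 then ev e.2.2 0 else ev e.2.1 0))⟩

lemma ext_ev {m : ℕ} (p p' : Fin (m + 1) → V) (h : ∀ j ≤ m, ev p j = ev p' j) : p = p' := by
  funext i
  have := h i (by omega)
  rwa [ev_coe, ev_coe] at this

lemma labG_inj (ha : Dist2 G a) (g D : ℕ) (ψ : (m : ℕ) → V → Fin (D ^ (m + 1)))
    (hψ : ∀ m, g ≤ m + 1 → Function.Injective (ψ m)) (z : V) :
    Set.InjOn (labG a D ψ z) {e | ValidG G a g e ∧ z ∈ DG e} := by
  rintro ⟨m, p, q⟩ ⟨hv, h⟩ ⟨m', p', q'⟩ ⟨hv', h'⟩ heq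
  have e1 := posG_spec z _ h
  have e2 := posG_spec z _ h'
  unfold labG at heq
  simp only at heq
  obtain ⟨rfl, heq2⟩ := Sigma.mk.inj_iff.1 heq
  have heq3 := eq_of_heq heq2
  rw [Prod.mk.injEq, Prod.mk.injEq, Prod.mk.injEq] at heq3
  obtain ⟨h1, h3, h4, h5⟩ := heq3
  rw [← h4] at h5
  rw [← h3, ← h4] at e2
  set r := posG z (⟨m, p, q⟩ : EvG V) with hr
  simp only at e1 e2 h5
  obtain ⟨-, -, -, hapq, hp, hq, hor⟩ := hv
  obtain ⟨-, -, -, hapq', hp', hq', hor'⟩ := hv'
  simp only at hapq hp hq hor hapq' hp' hq' hor'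
  have hap : ∀ j ≤ m, a (ev p j) = a (ev p' j) := fun j _ => congrFun h1 _
  have haq : ∀ j ≤ m, a (ev q j) = a (ev q' j) := by
    intro j hj
    have h6 : a (ev p j) = a (ev q j) := hapq _
    have h7 : a (ev p' j) = a (ev q' j) := hapq' _
    rw [← h6, ← h7]; exact hap j hj
  by_cases hs : r.2
  · rw [if_pos hs] at e1 e2
    rw [if_pos hs, if_pos hs] at h5
    have hpp : p = p' := by
      apply ext_ev
      apply walk_det G a ha m _ _ hp hp' hap r.1 (by omega)
      rw [ev_coe, ev_coe, ← e1, ← e2]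
    subst hpp
    have hq0 : ev q 0 = ev q' 0 := by
      by_cases hg : g ≤ m + 1
      · exact hψ m hg h5
      · have o1 := hor.resolve_left hg
        have o2 := hor'.resolve_left hg
        exact ha _ _ _ o1 o2 (haq 0 (Nat.zero_le _))
    have hqq : q = q' := by
      apply ext_ev
      exact walk_det G a ha m _ _ hq hq' haq 0 (Nat.zero_le _) hq0
    subst hqq
    rfl
  · rw [if_neg hs] at e1 e2
    rw [if_neg hs, if_neg hs] at h5
    have hqq : q = q' := by
      apply ext_ev
      apply walk_det G a ha m _ _ hq hq' haq r.1 (by omega)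
      rw [ev_coe, ev_coe, ← e1, ← e2]
    subst hqq
    have hpp : p = p' := by
      by_cases hg : g ≤ m + 1
      · apply ext_ev
        exact walk_det G a ha m _ _ hp hp' hap 0 (Nat.zero_le _) (hψ m hg h5)
      · have o1 := hor.resolve_left hg
        have o2 := hor'.resolve_left hg
        apply ext_ev
        apply walk_det G a ha m _ _ hp hp' hap m le_rfl
        refine ha (ev q 0) _ _ ?_ ?_ (hap m le_rfl)
        · rcases o1 with o | o
          · exact Or.inl o.symm
          · exact Or.inr o.symm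
        · rcases o2 with o | o
          · exact Or.inl o.symm
          · exact Or.inr o.symm
    subst hpp
    rfl

lemma geomG (N : ℕ) : ∑ n ∈ range N, 2 * ((n : ℝ) + 1) * (1 / 4) ^ (n + 1) ≤ 1 := by
  have h : ∀ N : ℕ, ∑ n ∈ range N, 2 * ((n : ℝ) + 1) * (1 / 4) ^ (n + 1) =
      8 / 9 - (6 * N + 8) / 9 * (1 / 4) ^ N := by
    intro N
    induction N with
    | zero => simp
    | succ N ih =>
      rw [sum_range_succ, ih]
      push_cast
      ring
  rw [h]
  have : (0 : ℝ) ≤ (6 * N + 8) / 9 * (1 / 4) ^ N := by positivity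
  linarith

variable [Fintype V] [Fintype α] [Nonempty α]

open Classical in
theorem exists_colouringG (ha : Dist2 G a) (g D : ℕ) (hD : 0 < D) (hV : Fintype.card V ≤ D ^ g) :
    ∃ c : V → Fin (128 * (Fintype.card α * D) ^ 3), ∀ e : EvG V, ValidG G a g e →
      ∃ i, c (e.2.1 i) ≠ c (e.2.2 i) := by
  have hα : 0 < Fintype.card α := Fintype.card_pos
  have hNZ : NeZero (128 * (Fintype.card α * D) ^ 3) := ⟨by positivity⟩
  -- codes for vertices
  have hψ : ∃ ψ : (m : ℕ) → V → Fin (D ^ (m + 1)), ∀ m, g ≤ m + 1 → Function.Injective (ψ m) := by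
    have : ∀ m : ℕ, ∃ f : V → Fin (D ^ (m + 1)), g ≤ m + 1 → Function.Injective f := by
      intro m
      by_cases hm : g ≤ m + 1
      · have hcard : Fintype.card V ≤ Fintype.card (Fin (D ^ (m + 1))) := by
          rw [Fintype.card_fin]
          exact hV.trans (Nat.pow_le_pow_right hD hm)
        obtain ⟨f⟩ := Function.Embedding.nonempty_of_card_le hcard
        exact ⟨f, fun _ => f.injective⟩
      · exact ⟨fun _ => ⟨0, by positivity⟩, fun h => absurd h hm⟩
    choose ψ hψ using this
    exact ⟨ψ, hψ⟩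
  obtain ⟨ψ, hψ⟩ := hψ
  let N := Fintype.card V
  let F : Finset (EvG V) := ((range N).sigma (fun m =>
    (univ : Finset ((Fin (m + 1) → V) × (Fin (m + 1) → V))))).filter (fun e => ValidG G a g e)
  let bad : EvG V → (V → Fin (128 * (Fintype.card α * D) ^ 3)) → Prop := fun e c =>
    ValidG G a g e ∧ ∀ i, c (e.2.1 i) = c (e.2.2 i)
  obtain ⟨c, hc⟩ := local_lemma (M := 128 * (Fintype.card α * D) ^ 3) DG (TG G a g) bad
    (by
      rintro ⟨m, p, q⟩
      refine ⟨p 0, ?_⟩
      unfold DG
      exact mem_union_left _ (mem_image_of_mem _ (mem_univ _)))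
    (by
      intro e z hz
      unfold TG
      split_ifs with h
      · have := (exists_det' e.2.1 e.2.2 h.1.1 h.1.2.1 h.1.2.2.1 z h.2).choose_spec
        exact ⟨this.2.1, this.1⟩
      · exact ⟨mem_singleton_self z, singleton_subset_iff.2 hz⟩)
    (by
      rintro e c c' h ⟨hv, hb⟩
      refine ⟨hv, ?_⟩
      intro i
      rw [← h _ (mem_union_left _ (mem_image_of_mem _ (mem_univ _))),
        ← h _ (mem_union_right _ (mem_image_of_mem _ (mem_univ _)))]
      exact hb i)
    (by
      rintro e z hz c c' ⟨hv, hb⟩ ⟨-, hb'⟩ hout x hx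
      unfold TG at hx hout
      rw [dif_pos ⟨hv, hz⟩] at hx
      rw [dif_pos ⟨hv, hz⟩] at hout
      exact (exists_det' e.2.1 e.2.2 hv.1 hv.2.1 hv.2.2.1 z hz).choose_spec.2.2.2 _ c c' hb hb'
        hout x hx)
    F
    (by
      intro z
      set K : ℝ := 4 * (Fintype.card α * D) with hK
      have hDr : (1 : ℝ) ≤ D := by exact_mod_cast hD
      have hαr : (1 : ℝ) ≤ Fintype.card α := by exact_mod_cast hα
      have hKpos : 0 < K := by positivity
      have hK1 : 1 ≤ K := by
        rw [hK]; nlinarith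
      have h2M : (2 / ((128 * (Fintype.card α * D) ^ 3 : ℕ) : ℝ)) = (K ^ 3)⁻¹ := by
        rw [hK]; push_cast
        field_simp
        norm_num
      have hterm : ∀ e ∈ F.filter (fun e => z ∈ DG e),
          (2 / ((128 * (Fintype.card α * D) ^ 3 : ℕ) : ℝ)) ^ (TG G a g e z).card ≤
            (K⁻¹) ^ ((labG a D ψ z e).1 + 1) := by
        intro e he
        rw [mem_filter] at he
        have hv : ValidG G a g e := (mem_filter.1 he.1).2
        have hcard : Fintype.card (Fin (e.1 + 1)) ≤ 3 * (TG G a g e z).card := by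
          unfold TG
          rw [dif_pos ⟨hv, he.2⟩]
          exact (exists_det' e.2.1 e.2.2 hv.1 hv.2.1 hv.2.2.1 z he.2).choose_spec.2.2.1
        rw [Fintype.card_fin] at hcard
        rw [h2M, ← inv_pow, ← pow_mul]
        apply pow_le_pow_of_le_one (by positivity) (inv_le_one_of_one_le₀ hK1)
        exact hcard
      calc ∑ e ∈ F.filter (fun e => z ∈ DG e),
            (2 / ((128 * (Fintype.card α * D) ^ 3 : ℕ) : ℝ)) ^ (TG G a g e z).card
          ≤ ∑ e ∈ F.filter (fun e => z ∈ DG e), (K⁻¹) ^ ((labG a D ψ z e).1 + 1) := sum_le_sum hterm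
        _ = ∑ l ∈ (F.filter (fun e => z ∈ DG e)).image (labG a D ψ z), (K⁻¹) ^ (l.1 + 1) := by
          rw [sum_image]
          intro e he e' he' h
          exact labG_inj G a ha g D ψ hψ z
            ⟨(mem_filter.1 (mem_filter.1 he).1).2, (mem_filter.1 he).2⟩
            ⟨(mem_filter.1 (mem_filter.1 he').1).2, (mem_filter.1 he').2⟩ h
        _ ≤ ∑ l ∈ (range N).sigma (fun n => (univ : Finset ((Fin (n + 1) → α) × Fin (n + 1) × Bool ×
              Fin (D ^ (n + 1))))), (K⁻¹) ^ (l.1 + 1) := by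
          apply sum_le_sum_of_subset_of_nonneg
          · intro l hl
            obtain ⟨e, he, rfl⟩ := mem_image.1 hl
            have h1 := (mem_filter.1 (mem_filter.1 he).1).1
            rw [mem_sigma] at h1
            rw [mem_sigma]
            exact ⟨h1.1, mem_univ _⟩
          · intro l _ _; positivity
        _ = ∑ n ∈ range N, 2 * ((n : ℝ) + 1) * (1 / 4) ^ (n + 1) := by
          rw [sum_sigma]
          apply sum_congr rfl
          intro n _
          simp only []
          rw [sum_const, card_univ, Fintype.card_prod, Fintype.card_prod, Fintype.card_prod,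
            Fintype.card_fun, Fintype.card_fin, Fintype.card_fin, Fintype.card_bool, nsmul_eq_mul]
          push_cast
          rw [hK]
          have hA1 : (Fintype.card α : ℝ) ≠ 0 := by positivity
          have hD1 : (D : ℝ) ≠ 0 := by positivity
          rw [mul_inv, mul_inv, mul_pow, mul_pow, inv_pow (Fintype.card α : ℝ), inv_pow (D : ℝ)]
          field_simp
        _ ≤ 1 := geomG N)
  refine ⟨c, ?_⟩
  intro e hv
  have he : e ∈ F := by
    simp only [F, mem_filter, mem_sigma, mem_range, mem_univ, and_true]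
    refine ⟨?_, hv⟩
    have := Fintype.card_le_of_injective _ hv.1
    rw [Fintype.card_fin] at this
    omega
  have h1 := hc _ he
  simp only [bad, not_and] at h1
  have h2 := h1 hv
  push Not at h2
  exact h2

end walks

end Pool.Agent.CayNR
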