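import Mathlib

set_option autoImplicit false

namespace Pool.Agent.CayNR

open Finset

section counting

variable {V E : Type*} [Fintype V] {M : ℕ} [NeZero M]

open Classical in
/-- assignments that vanish outside `U` and avoid all bad events of `F` supported in `U` -/
noncomputable def goodOn (D : E → Finset V) (bad : E → (V → Fin M) → Prop) (F : Finset E) (U : Finset V) :
    Finset (V → Fin M) :=
  univ.filter (fun c => (∀ x, x ∉ U → c x = 0) ∧ ∀ e ∈ F, D e ⊆ U → ¬ bad e c)

lemma mem_goodOn {D : E → Finset V} {bad : E → (V → Fin M) → Prop} {F : Finset E} {U : Finset V}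
    {c : V → Fin M} : c ∈ goodOn D bad F U ↔
    (∀ x, x ∉ U → c x = 0) ∧ ∀ e ∈ F, D e ⊆ U → ¬ bad e c := by
  simp [goodOn]

open Classical in
lemma step_bound (D : E → Finset V) (T : E → V → Finset V) (bad : E → (V → Fin M) → Prop)
    (hT : ∀ e, ∀ z ∈ D e, z ∈ T e z ∧ T e z ⊆ D e)
    (hloc : ∀ e c c', (∀ x ∈ D e, c x = c' x) → bad e c → bad e c')
    (hone : ∀ e, ∀ z ∈ D e, ∀ c c', bad e c → bad e c' →
      (∀ x ∈ D e, x ∉ T e z → c x = c' x) → ∀ x ∈ T e z, c x = c' x)
    (F : Finset E) (U : Finset V) (z : V) (hz : z ∉ U) :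
    M * (goodOn D bad F U).card ≤ (goodOn D bad F (insert z U)).card +
      ∑ e ∈ F.filter (fun e => z ∈ D e ∧ D e ⊆ insert z U), (goodOn D bad F (U \ T e z)).card := by
  -- image of the extension map
  let Φ : (V → Fin M) × Fin M → (V → Fin M) := fun p => Function.update p.1 z p.2
  let P : Finset ((V → Fin M) × Fin M) := goodOn D bad F U ×ˢ (univ : Finset (Fin M))
  have hΦ : Set.InjOn Φ P := by
    rintro ⟨c, t⟩ hc ⟨c', t'⟩ hc' h
    simp only [P, coe_product, Set.mem_prod, mem_coe, mem_goodOn, Φ] at hc hc' h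
    have h1 : t = t' := by
      have := congrFun h z
      simpa using this
    have h2 : c = c' := by
      funext x
      by_cases hx : x = z
      · subst hx; rw [hc.1.1 _ hz, hc'.1.1 _ hz]
      · have := congrFun h x
        simpa [Function.update_of_ne hx] using this
    rw [h1, h2]
  have hcardP : (P.image Φ).card = M * (goodOn D bad F U).card := by
    rw [card_image_of_injOn hΦ, card_product, card_univ, Fintype.card_fin, mul_comm]
  let Bad : E → Finset (V → Fin M) := fun e => (P.image Φ).filter (fun c => bad e c)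
  have hsub : P.image Φ ⊆ goodOn D bad F (insert z U) ∪
      (F.filter (fun e => z ∈ D e ∧ D e ⊆ insert z U)).biUnion Bad := by
    intro c' hc'
    rw [mem_union]
    by_cases hgood : c' ∈ goodOn D bad F (insert z U)
    · exact Or.inl hgood
    · right
      rw [mem_image] at hc'
      obtain ⟨⟨c, t⟩, hct, rfl⟩ := hc'
      have hct0 := hct
      simp only [P, mem_product, mem_goodOn, mem_univ, and_true] at hct
      rw [mem_goodOn] at hgood
      push Not at hgood
      obtain ⟨e, heF, heU, hbad⟩ := hgood (by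
        intro x hx
        rw [mem_insert, not_or] at hx
        simp only [Φ, Function.update_of_ne hx.1]
        exact hct.1 x hx.2)
      have hze : z ∈ D e := by
        by_contra hze
        have hsubU : D e ⊆ U := by
          intro x hx
          rcases mem_insert.1 (heU hx) with h | h
          · rw [h] at hx; exact absurd hx hze
          · exact h
        apply hct.2 e heF hsubU
        refine hloc e _ c ?_ hbad
        intro x hx
        have hxz : x ≠ z := fun h => hze (h ▸ hx)
        simp only [Φ, Function.update_of_ne hxz]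
      rw [mem_biUnion]
      refine ⟨e, mem_filter.2 ⟨heF, hze, heU⟩, ?_⟩
      simp only [Bad, mem_filter]
      exact ⟨mem_image_of_mem _ hct0, hbad⟩
  have hBad : ∀ e ∈ F.filter (fun e => z ∈ D e ∧ D e ⊆ insert z U),
      (Bad e).card ≤ (goodOn D bad F (U \ T e z)).card := by
    intro e he
    rw [mem_filter] at he
    obtain ⟨heF, hze, heU⟩ := he
    obtain ⟨hzT, hTD⟩ := hT e z hze
    refine card_le_card_of_injOn (fun c' x => if x ∈ U \ T e z then c' x else 0) ?_ ?_
    · intro c' hc'
      simp only [Bad, coe_filter, Set.mem_ofPred_eq, mem_image] at hc'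
      obtain ⟨⟨⟨c, t⟩, hct, rfl⟩, hbad⟩ := hc'
      simp only [P, mem_product, mem_goodOn, mem_univ, and_true] at hct
      rw [mem_coe, mem_goodOn]
      refine ⟨fun x hx => if_neg hx, ?_⟩
      intro e' he' hsub' hbad'
      apply hct.2 e' he' (hsub'.trans sdiff_subset)
      refine hloc e' _ c ?_ hbad'
      intro x hx
      have hx' := hsub' hx
      have hxz : x ≠ z := by
        rintro rfl
        exact hz (mem_sdiff.1 hx').1
      simp only [if_pos hx', Φ, Function.update_of_ne hxz]
    · intro c1 hc1 c2 hc2 h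
      simp only [Bad, coe_filter, Set.mem_ofPred_eq, mem_image] at hc1 hc2
      obtain ⟨⟨⟨c, t⟩, hct, rfl⟩, hbad⟩ := hc1
      obtain ⟨⟨⟨c', t'⟩, hct', rfl⟩, hbad'⟩ := hc2
      simp only [P, mem_product, mem_goodOn, mem_univ, and_true] at hct hct'
      have hout : ∀ x, x ∉ T e z → Φ (c, t) x = Φ (c', t') x := by
        intro x hxD
        have hxz : x ≠ z := fun h => hxD (h ▸ hzT)
        by_cases hxU : x ∈ U
        · have := congrFun h x
          simp only [mem_sdiff, hxU, hxD, not_false_iff, and_self, if_true] at this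
          exact this
        · simp only [Φ, Function.update_of_ne hxz]
          rw [hct.1 x hxU, hct'.1 x hxU]
      funext x
      by_cases hxD : x ∈ T e z
      · exact hone e z hze _ _ hbad hbad' (fun y _ hy => hout y hy) x hxD
      · exact hout x hxD
  calc M * (goodOn D bad F U).card = (P.image Φ).card := hcardP.symm
    _ ≤ (goodOn D bad F (insert z U) ∪
      (F.filter (fun e => z ∈ D e ∧ D e ⊆ insert z U)).biUnion Bad).card := card_le_card hsub
    _ ≤ (goodOn D bad F (insert z U)).card +
      ((F.filter (fun e => z ∈ D e ∧ D e ⊆ insert z U)).biUnion Bad).card := card_union_le _ _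
    _ ≤ (goodOn D bad F (insert z U)).card +
      ∑ e ∈ F.filter (fun e => z ∈ D e ∧ D e ⊆ insert z U), (Bad e).card :=
        Nat.add_le_add_left card_biUnion_le _
    _ ≤ _ := Nat.add_le_add_left (sum_le_sum hBad) _

open Classical in
lemma growth (D : E → Finset V) (T : E → V → Finset V) (bad : E → (V → Fin M) → Prop)
    (hT : ∀ e, ∀ z ∈ D e, z ∈ T e z ∧ T e z ⊆ D e)
    (hloc : ∀ e c c', (∀ x ∈ D e, c x = c' x) → bad e c → bad e c')
    (hone : ∀ e, ∀ z ∈ D e, ∀ c c', bad e c → bad e c' →
      (∀ x ∈ D e, x ∉ T e z → c x = c' x) → ∀ x ∈ T e z, c x = c' x)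
    (F : Finset E)
    (hsum : ∀ z, ∑ e ∈ F.filter (fun e => z ∈ D e), (2 / (M : ℝ)) ^ (T e z).card ≤ 1) :
    ∀ n : ℕ, ∀ U : Finset V, U.card = n → ∀ W ⊆ U,
      ((goodOn D bad F W).card : ℝ) * ((M : ℝ) / 2) ^ (U.card - W.card) ≤ (goodOn D bad F U).card := by
  have hM : (0 : ℝ) < M := by exact_mod_cast Nat.pos_of_ne_zero (NeZero.ne M)
  intro n
  induction n with
  | zero =>
    intro U hU W hW
    rw [card_eq_zero] at hU
    subst hU
    rw [subset_empty.1 hW]
    simp
  | succ n ih =>
    intro U hU W hW
    by_cases hWU : W = U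
    · subst hWU; simp
    obtain ⟨z, hzU, hzW⟩ : ∃ z ∈ U, z ∉ W := by
      by_contra hcon
      push Not at hcon
      exact hWU (Subset.antisymm hW hcon)
    set U' := U.erase z with hU'
    have hzU' : z ∉ U' := notMem_erase z U
    have hins : insert z U' = U := insert_erase hzU
    have hcardU' : U'.card = n := by rw [hU', card_erase_of_mem hzU, hU]; rfl
    have hWU' : W ⊆ U' := by
      intro x hx
      rw [hU', mem_erase]
      exact ⟨fun h => hzW (h ▸ hx), hW hx⟩
    have h1 := ih U' hcardU' W hWU'
    have h2 := step_bound D T bad hT hloc hone F U' z hzU'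
    rw [hins] at h2
    have h3 : ∀ e ∈ F.filter (fun e => z ∈ D e ∧ D e ⊆ U),
        ((goodOn D bad F (U' \ T e z)).card : ℝ) ≤
          ((M : ℝ) / 2) * (2 / (M : ℝ)) ^ (T e z).card * (goodOn D bad F U').card := by
      intro e he
      rw [mem_filter] at he
      obtain ⟨heF, hze, heU⟩ := he
      obtain ⟨hzT, hTD⟩ := hT e z hze
      have h4 := ih U' hcardU' (U' \ T e z) sdiff_subset
      have hc : U'.card - (U' \ T e z).card + 1 = (T e z).card := by
        have h5 : (U' ∩ T e z).card + (U' \ T e z).card = U'.card :=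
          card_inter_add_card_sdiff U' (T e z)
        have h6 : T e z = insert z (U' ∩ T e z) := by
          ext x
          rw [mem_insert, mem_inter, hU', mem_erase]
          constructor
          · intro hx
            by_cases hxz : x = z
            · exact Or.inl hxz
            · exact Or.inr ⟨⟨hxz, heU (hTD hx)⟩, hx⟩
          · rintro (rfl | ⟨-, hx⟩)
            · exact hzT
            · exact hx
        have h7 : (T e z).card = (U' ∩ T e z).card + 1 := by
          conv_lhs => rw [h6]
          rw [card_insert_of_notMem]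
          intro h
          exact hzU' (mem_inter.1 h).1
        omega
      set k := U'.card - (U' \ T e z).card with hk
      rw [← hc]
      have hpos : (0 : ℝ) < ((M : ℝ) / 2) ^ k := by positivity
      have h8 : ((M : ℝ) / 2) * (2 / (M : ℝ)) ^ (k + 1) = (((M : ℝ) / 2) ^ k)⁻¹ := by
        rw [pow_succ]
        have : (2 / (M : ℝ)) = ((M : ℝ) / 2)⁻¹ := by rw [inv_div]
        rw [this, inv_pow]
        field_simp
      rw [h8]
      rw [inv_mul_eq_div, le_div_iff₀ hpos]
      exact h4
    have h4 : ((∑ e ∈ F.filter (fun e => z ∈ D e ∧ D e ⊆ U), (goodOn D bad F (U' \ T e z)).card : ℕ) : ℝ) ≤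
        ((M : ℝ) / 2) * (goodOn D bad F U').card := by
      push_cast
      calc ∑ e ∈ F.filter (fun e => z ∈ D e ∧ D e ⊆ U), ((goodOn D bad F (U' \ T e z)).card : ℝ)
          ≤ ∑ e ∈ F.filter (fun e => z ∈ D e ∧ D e ⊆ U),
            ((M : ℝ) / 2) * (2 / (M : ℝ)) ^ (T e z).card * (goodOn D bad F U').card := sum_le_sum h3
        _ ≤ ∑ e ∈ F.filter (fun e => z ∈ D e),
            ((M : ℝ) / 2) * (2 / (M : ℝ)) ^ (T e z).card * (goodOn D bad F U').card := by
          apply sum_le_sum_of_subset_of_nonneg
          · intro e he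
            rw [mem_filter] at he ⊢
            exact ⟨he.1, he.2.1⟩
          · intro e _ _; positivity
        _ = ((M : ℝ) / 2) * (∑ e ∈ F.filter (fun e => z ∈ D e), (2 / (M : ℝ)) ^ (T e z).card) *
            (goodOn D bad F U').card := by
          rw [← sum_mul, ← mul_sum]
        _ ≤ ((M : ℝ) / 2) * 1 * (goodOn D bad F U').card := by
          have := hsum z
          gcongr
        _ = _ := by ring
    have h5 : (M : ℝ) * (goodOn D bad F U').card ≤ (goodOn D bad F U).card +
        ((M : ℝ) / 2) * (goodOn D bad F U').card := by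
      have : ((M * (goodOn D bad F U').card : ℕ) : ℝ) ≤ (((goodOn D bad F U).card +
        ∑ e ∈ F.filter (fun e => z ∈ D e ∧ D e ⊆ U), (goodOn D bad F (U' \ T e z)).card : ℕ) : ℝ) := by
        exact_mod_cast h2
      rw [Nat.cast_add, Nat.cast_mul] at this
      linarith
    have h6 : ((M : ℝ) / 2) * (goodOn D bad F U').card ≤ (goodOn D bad F U).card := by linarith
    have h7 : U.card - W.card = (U'.card - W.card) + 1 := by
      have := card_le_card hWU'
      omega
    rw [h7, pow_succ]
    calc ((goodOn D bad F W).card : ℝ) * (((M : ℝ) / 2) ^ (U'.card - W.card) * ((M : ℝ) / 2))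
        = ((M : ℝ) / 2) * (((goodOn D bad F W).card : ℝ) * ((M : ℝ) / 2) ^ (U'.card - W.card)) := by ring
      _ ≤ ((M : ℝ) / 2) * (goodOn D bad F U').card := by gcongr
      _ ≤ _ := h6

open Classical in
lemma exists_good_finite (D : E → Finset V) (T : E → V → Finset V) (bad : E → (V → Fin M) → Prop)
    (hne : ∀ e, (D e).Nonempty)
    (hT : ∀ e, ∀ z ∈ D e, z ∈ T e z ∧ T e z ⊆ D e)
    (hloc : ∀ e c c', (∀ x ∈ D e, c x = c' x) → bad e c → bad e c')
    (hone : ∀ e, ∀ z ∈ D e, ∀ c c', bad e c → bad e c' →
      (∀ x ∈ D e, x ∉ T e z → c x = c' x) → ∀ x ∈ T e z, c x = c' x)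
    (F : Finset E)
    (hsum : ∀ z, ∑ e ∈ F.filter (fun e => z ∈ D e), (2 / (M : ℝ)) ^ (T e z).card ≤ 1) :
    ∃ c : V → Fin M, ∀ e ∈ F, ¬ bad e c := by
  have hM : (0 : ℝ) < M := by exact_mod_cast Nat.pos_of_ne_zero (NeZero.ne M)
  have h := growth D T bad hT hloc hone F hsum _ univ rfl ∅ (empty_subset _)
  have h0 : 0 < ((goodOn D bad F ∅).card : ℝ) := by
    rw [Nat.cast_pos, card_pos]
    refine ⟨0, ?_⟩
    rw [mem_goodOn]
    refine ⟨fun _ _ => rfl, ?_⟩
    intro e _ he
    obtain ⟨x, hx⟩ := hne e
    exact absurd (he hx) (notMem_empty x)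
  have h1 : 0 < ((goodOn D bad F univ).card : ℝ) :=
    lt_of_lt_of_le (mul_pos h0 (by positivity)) h
  rw [Nat.cast_pos, card_pos] at h1
  obtain ⟨c, hc⟩ := h1
  rw [mem_goodOn] at hc
  exact ⟨c, fun e he => hc.2 e he (subset_univ _)⟩

end counting

open Classical in
/-- Counting local lemma (Rosenfeld): every bad event `e` has a finite support `D e`, and for each
`z` in the support a set `T e z` of variables containing `z` whose values are determined by the
other values when the event occurs. Finite set of events version on an arbitrary set of variables. -/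
theorem local_lemma {V E : Type*} {M : ℕ} [NeZero M] (D : E → Finset V)
    (T : E → V → Finset V) (bad : E → (V → Fin M) → Prop)
    (hne : ∀ e, (D e).Nonempty)
    (hT : ∀ e, ∀ z ∈ D e, z ∈ T e z ∧ T e z ⊆ D e)
    (hloc : ∀ e c c', (∀ x ∈ D e, c x = c' x) → bad e c → bad e c')
    (hone : ∀ e, ∀ z ∈ D e, ∀ c c', bad e c → bad e c' →
      (∀ x ∈ D e, x ∉ T e z → c x = c' x) → ∀ x ∈ T e z, c x = c' x)
    (F : Finset E)
    (hsum : ∀ (z : V),
      ∑ e ∈ F.filter (fun e => z ∈ D e), (2 / (M : ℝ)) ^ (T e z).card ≤ 1) :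
    ∃ c : V → Fin M, ∀ e ∈ F, ¬ bad e c := by
  let V0 : Finset V := F.biUnion D
  let ext0 : (V0 → Fin M) → (V → Fin M) := fun c x => if h : x ∈ V0 then c ⟨x, h⟩ else 0
  let D' : F → Finset V0 := fun e => univ.filter (fun x : V0 => (x : V) ∈ D e)
  let T' : F → V0 → Finset V0 := fun e z => univ.filter (fun x : V0 => (x : V) ∈ T e z)
  have hmemD : ∀ (e : F) (x : V), x ∈ D e → x ∈ V0 := fun e x hx => mem_biUnion.2 ⟨e, e.2, hx⟩
  have hT'card : ∀ (e : F) (z : V0), z ∈ D' e → (T' e z).card = (T e z).card := by
    intro e z hz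
    have hz' : (z : V) ∈ D e := by simpa [D'] using hz
    rw [← card_map (Function.Embedding.subtype (fun x => x ∈ V0)) (s := T' e z)]
    congr 1
    ext x
    simp only [mem_map, T', mem_filter, mem_univ, true_and, Function.Embedding.coe_subtype]
    constructor
    · rintro ⟨y, hy, rfl⟩; exact hy
    · intro hx
      exact ⟨⟨x, hmemD e x ((hT e z hz').2 hx)⟩, hx, rfl⟩
  obtain ⟨c, hc⟩ := exists_good_finite (V := V0) (E := F) (M := M) D' T' (fun e c => bad e (ext0 c))
    (by
      intro e
      obtain ⟨x, hx⟩ := hne e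
      exact ⟨⟨x, hmemD e x hx⟩, by simp [D', hx]⟩)
    (by
      intro e z hz
      have hz' : (z : V) ∈ D e := by simpa [D'] using hz
      obtain ⟨h1, h2⟩ := hT e z hz'
      refine ⟨by simp [T', h1], ?_⟩
      intro x hx
      have hx' : (x : V) ∈ T e z := by simpa [T'] using hx
      have := h2 hx'
      simp [D', this])
    (by
      intro e c c' h hb
      refine hloc e _ _ ?_ hb
      intro x hx
      have hx0 : x ∈ V0 := hmemD e x hx
      simp only [ext0, dif_pos hx0]
      exact h ⟨x, hx0⟩ (by simp [D', hx]))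
    (by
      intro e z hz c c' hb hb' hout x hx
      have hz' : (z : V) ∈ D e := by simpa [D'] using hz
      have hx' : (x : V) ∈ T e z := by simpa [T'] using hx
      have := hone e z hz' _ _ hb hb' (by
        intro y hy hyT
        have hy0 : y ∈ V0 := hmemD e y hy
        simp only [ext0, dif_pos hy0]
        exact hout ⟨y, hy0⟩ (by simp [D', hy]) (by simp [T', hyT])) x hx'
      simpa [ext0, x.2] using this)
    univ
    (by
      intro z
      have h1 := hsum z
      refine le_trans (le_of_eq ?_) h1
      have : (F.filter (fun e => (z : V) ∈ D e)) =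
          ((univ : Finset F).filter (fun e => z ∈ D' e)).map (Function.Embedding.subtype _) := by
        ext e
        simp only [mem_filter, mem_map, mem_univ, true_and, D', Function.Embedding.coe_subtype]
        constructor
        · rintro ⟨he, hz⟩
          exact ⟨⟨e, he⟩, hz, rfl⟩
        · rintro ⟨e', hz, rfl⟩
          exact ⟨e'.2, hz⟩
      rw [this, sum_map]
      simp only [Function.Embedding.coe_subtype]
      refine sum_congr ?_ ?_
      · ext e
        simp only [mem_filter]
      · intro e he
        rw [hT'card e z (by simpa using he)])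
  refine ⟨ext0 c, ?_⟩
  intro e he
  exact hc ⟨e, he⟩ (mem_univ _)

end Pool.Agent.CayNR
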