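import Pool.Agent.CayNR.Base

set_option autoImplicit false

namespace Pool.Agent.CayNR

open Finset

/-- product of the labels along the first `n` steps of the walk `x` -/
def labelProd {V Γ : Type*} [Group Γ] (lam : V → V → Γ) (x : ℕ → V) : ℕ → Γ
  | 0 => 1
  | n + 1 => labelProd lam x n * lam (x n) (x (n + 1))

/-- number of colours, for maximum degree `Δ`, `d` labels and at most `D ^ g` vertices -/
def boundL (Δ d D : ℕ) : ℕ := (cA Δ * (d + 1) ^ cA Δ) * (128 * (cA Δ * D) ^ 3)

theorem localCayley {V : Type*} [Fintype V] {Γ : Type*} [Group Γ] (S : Finset Γ)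
    (G : SimpleGraph V) (lam : V → V → Γ) (hS : ∀ x y, G.Adj x y → lam x y ∈ S) (g D Δ : ℕ)
    (hD : 0 < D) (hV : Fintype.card V ≤ D ^ g) (hΔ : ∀ v, (G.neighborSet v).ncard ≤ Δ)
    (hloc : ∀ m < g, ∀ x : ℕ → V, (∀ i < m, G.Adj (x i) (x (i + 1))) →
      (x m = x 0 ↔ labelProd lam x m = 1)) :
    HasBoringColouring G (boundL Δ S.card D) := by
  classical
  obtain ⟨a, ha⟩ := exists_dist2 G Δ hΔ
  -- table of labels
  have hT : ∃ T : V → Fin (cA Δ) → Option S, ∀ x y (h : G.Adj x y),
      T x (a y) = some ⟨lam x y, hS _ _ h⟩ := by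
    refine ⟨fun x α => if h : ∃ y, G.Adj x y ∧ a y = α then
      some ⟨lam x h.choose, hS _ _ h.choose_spec.1⟩ else none, ?_⟩
    intro x y h
    have hex : ∃ y', G.Adj x y' ∧ a y' = a y := ⟨y, h, rfl⟩
    simp only [dif_pos hex]
    have h1 := hex.choose_spec
    have h2 : hex.choose = y := ha x _ _ (Or.inl h1.1) (Or.inl h) h1.2
    simp only [h2]
  obtain ⟨T, hT⟩ := hT
  exact stroll_of_base G a ha (fun x => (a x, T x))
    (fun x y h => (Prod.mk.inj h).1) g D hD hV
    (by
      intro m x y _ hmg hx hcl _ hy _ hR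
      have hlam : ∀ i < m, lam (x i) (x (i + 1)) = lam (y i) (y (i + 1)) := by
        intro i hi
        have h1 := hT _ _ (hx i hi)
        have h2 := hT _ _ (hy i hi)
        obtain ⟨-, e2⟩ := Prod.mk.inj (hR i (by omega))
        obtain ⟨e3, -⟩ := Prod.mk.inj (hR (i + 1) (by omega))
        rw [e2, e3, h2] at h1
        exact (congrArg Subtype.val (Option.some.inj h1)).symm
      have hprod : ∀ i ≤ m, labelProd lam x i = labelProd lam y i := by
        intro i
        induction i with
        | zero => intro _; rfl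
        | succ i ih =>
          intro hi
          simp only [labelProd]
          rw [ih (by omega), hlam i (by omega)]
      rw [hloc m hmg y hy, ← hprod m le_rfl, ← hloc m hmg x hx]
      exact hcl) _ (by simp [boundL])

/-- The case of subgraphs of Cayley graphs. -/
theorem cayleySubgraph {V : Type*} [Fintype V] {Γ : Type*} [Group Γ] (S : Finset Γ)
    (G : SimpleGraph V) (φ : V → Γ) (hφ : Function.Injective φ)
    (hadj : ∀ x y, G.Adj x y → (φ x)⁻¹ * φ y ∈ S) :
    HasBoringColouring G (boundL S.card S.card 2) := by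
  classical
  refine localCayley S G (fun x y => (φ x)⁻¹ * φ y) hadj (Fintype.card V) 2 S.card two_pos
    (Nat.lt_two_pow_self).le ?_ ?_
  · intro v
    have h1 : ((fun y => (φ v)⁻¹ * φ y) '' G.neighborSet v) ⊆ (S : Set Γ) := by
      rintro _ ⟨y, hy, rfl⟩
      exact hadj _ _ hy
    have hinj : Function.Injective (fun y => (φ v)⁻¹ * φ y) :=
      fun y y' h => hφ (mul_left_cancel h)
    rw [← Set.ncard_image_of_injective _ hinj, ← Set.ncard_coe_finset]
    exact Set.ncard_le_ncard h1 (Set.toFinite _)
  · intro m _ x _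
    have h : ∀ n, labelProd (fun x y => (φ x)⁻¹ * φ y) x n = (φ (x 0))⁻¹ * φ (x n) := by
      intro n
      induction n with
      | zero => simp [labelProd]
      | succ n ih =>
        simp only [labelProd]
        rw [ih]; group
    rw [h, inv_mul_eq_one]
    exact ⟨fun h => by rw [h], fun h => (hφ h).symm⟩

end Pool.Agent.CayNR
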