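import Pool.Agent.CayNR.Base

set_option autoImplicit false

namespace Pool.Agent.CayNR

open Finset

section arith

/-- Two marked cycles with compatible marks have the same length. -/
lemma arith_marks (r r' l l' : ℕ) (hr : r < l) (hr' : r' < l') (hl : 2 ≤ l) (hl' : 2 ≤ l')
    (par : l % 2 = 0 ↔ l' % 2 = 0)
    (h0 : ∀ i ≤ l, ((r + i) % l = 0 ↔ (r' + i) % l' = 0))
    (hN : ∀ i ≤ l, ((r + i) % l = l / 2 ↔ (r' + i) % l' = l' / 2)) : l = l' := by
  -- a time at which the base point is met
  obtain ⟨u, hul, hu⟩ : ∃ u < l, (r + u) % l = 0 := by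
    rcases Nat.eq_zero_or_pos r with h | h
    · exact ⟨0, by omega, by rw [h]; exact Nat.zero_mod _⟩
    · exact ⟨l - r, by omega, by rw [Nat.add_sub_cancel' hr.le]; exact Nat.mod_self _⟩
  have hu' : (r' + u) % l' = 0 := (h0 u hul.le).1 hu
  have hx : ∀ j, (r + u + j) % l = j % l := by
    intro j
    rw [Nat.add_mod, hu, zero_add, Nat.mod_mod]
  have hy : ∀ j, (r' + u + j) % l' = j % l' := by
    intro j
    rw [Nat.add_mod, hu', zero_add, Nat.mod_mod]
  have hkey : l / 2 = l' / 2 ∨ l - l / 2 = l' - l' / 2 := by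
    rcases Nat.lt_or_ge l (u + l / 2) with hc | hc
    · right
      -- from the middle point to the base point
      have hv : (r + (u + l / 2 - l)) % l = l / 2 := by
        have e : r + (u + l / 2 - l) + l = r + u + l / 2 := by omega
        rw [← Nat.add_mod_right, e, hx, Nat.mod_eq_of_lt (by omega)]
      have hv' : (r' + (u + l / 2 - l)) % l' = l' / 2 := (hN _ (by omega)).1 hv
      have hy2 : ∀ j, (r' + (u + l / 2 - l) + j) % l' = (l' / 2 + j) % l' := by
        intro j
        rw [Nat.add_mod, hv', Nat.add_mod_mod]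
      have hx2 : ∀ j, (r + (u + l / 2 - l) + j) % l = (l / 2 + j) % l := by
        intro j
        rw [Nat.add_mod, hv, Nat.add_mod_mod]
      -- at the time of the base point
      have h1 : (l' / 2 + (l - l / 2)) % l' = 0 := by
        rw [← hy2]
        have e : r' + (u + l / 2 - l) + (l - l / 2) = r' + u := by omega
        rw [e]; exact hu'
      have h2 : l' - l' / 2 ≤ l - l / 2 := by
        by_contra hcon
        rw [Nat.mod_eq_of_lt (by omega)] at h1
        omega
      have h3 : l - l / 2 ≤ l' - l' / 2 := by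
        by_contra hcon
        have h4 : (r' + (u + l / 2 - l + (l' - l' / 2))) % l' = 0 := by
          rw [← Nat.add_assoc, hy2]
          have e : l' / 2 + (l' - l' / 2) = l' := by omega
          rw [e]; exact Nat.mod_self _
        have h5 := (h0 (u + l / 2 - l + (l' - l' / 2)) (by omega)).2 h4
        rw [← Nat.add_assoc, hx2, Nat.mod_eq_of_lt (by omega)] at h5
        omega
      omega
    · left
      have h1 : (r' + (u + l / 2)) % l' = l' / 2 := by
        apply (hN _ hc).1
        rw [← Nat.add_assoc, hx, Nat.mod_eq_of_lt (by omega)]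
      rw [← Nat.add_assoc, hy] at h1
      have h2 : l / 2 ≤ l' / 2 := by
        by_contra hcon
        have h3 : (r' + (u + l' / 2)) % l' = l' / 2 := by
          rw [← Nat.add_assoc, hy, Nat.mod_eq_of_lt (by omega)]
        have h4 := (hN _ (by omega)).2 h3
        rw [← Nat.add_assoc, hx, Nat.mod_eq_of_lt (by omega)] at h4
        omega
      rw [Nat.mod_eq_of_lt (by omega)] at h1
      exact h1
  omega

end arith

section marks

variable {V : Type*} (G : SimpleGraph V)

/-- a closed sequence of `m ≥ 3` distinct vertices -/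
def IsCyc (m : ℕ) (x : ℕ → V) : Prop :=
  3 ≤ m ∧ (∀ i < m, G.Adj (x i) (x (i + 1))) ∧ x m = x 0 ∧ (∀ i < m, ∀ j < m, x i = x j → i = j)

/-- rotation along the short cycles -/
structure Rot (g : ℕ) where
  σ : V → V
  len : V → ℕ
  pos : V → ℕ
  adj : ∀ y, G.Adj y (σ y) → G.Adj (σ y) (σ (σ y))
  len_eq : ∀ y, G.Adj y (σ y) → len (σ y) = len y
  pos_eq : ∀ y, G.Adj y (σ y) → pos (σ y) = (pos y + 1) % len y
  pos_lt : ∀ y, G.Adj y (σ y) → pos y < len y
  per : ∀ y, G.Adj y (σ y) → σ^[len y] y = y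
  cyc : ∀ m x, m < g → IsCyc G m x →
    (∀ i < m, x (i + 1) = σ (x i)) ∨ (∀ i < m, x i = σ (x (i + 1)))

variable {G} {g : ℕ} (ρ : Rot G g)

lemma Rot.iter (y : V) (hy : G.Adj y (ρ.σ y)) (i : ℕ) :
    G.Adj (ρ.σ^[i] y) (ρ.σ (ρ.σ^[i] y)) ∧ ρ.len (ρ.σ^[i] y) = ρ.len y ∧
      ρ.pos (ρ.σ^[i] y) = (ρ.pos y + i) % ρ.len y := by
  induction i with
  | zero =>
    refine ⟨hy, rfl, ?_⟩
    rw [Function.iterate_zero, id, add_zero, Nat.mod_eq_of_lt (ρ.pos_lt y hy)]
  | succ i ih =>
    obtain ⟨h1, h2, h3⟩ := ih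
    rw [Function.iterate_succ_apply']
    refine ⟨ρ.adj _ h1, (ρ.len_eq _ h1).trans h2, ?_⟩
    rw [ρ.pos_eq _ h1, h2, h3, Nat.mod_add_mod, add_assoc]

variable {α : Type*} (a : V → α)

open Classical in
/-- the colours of the marks -/
noncomputable def markCol (x : V) : α × Option α × Bool × Bool × Bool :=
  (a x, if G.Adj x (ρ.σ x) then some (a (ρ.σ x)) else none, decide (ρ.pos x = 0),
    decide (ρ.pos x = ρ.len x / 2), decide (ρ.len x % 2 = 0))

lemma rot_follow (ha : Dist2 G a) (x y x' y' : V) (hxx : G.Adj x x') (hyy : G.Adj y y')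
    (h : markCol ρ a x = markCol ρ a y) (h' : markCol ρ a x' = markCol ρ a y')
    (hσ : x' = ρ.σ x) : y' = ρ.σ y := by
  classical
  unfold markCol at h h'
  simp only [Prod.mk.injEq] at h h'
  obtain ⟨-, h2, -⟩ := h
  obtain ⟨h1', -⟩ := h'
  rw [if_pos (by rw [← hσ]; exact hxx), ← hσ] at h2
  by_cases hy : G.Adj y (ρ.σ y)
  · rw [if_pos hy] at h2
    have h3 := Option.some.inj h2
    exact ha y _ _ (Or.inl hyy) (Or.inl hy) (by rw [← h1', h3])
  · rw [if_neg hy] at h2
    exact absurd h2 (by simp)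

lemma rot_closed (ha : Dist2 G a) (m : ℕ) (x y : ℕ → V) (hx : IsCyc G m x)
    (hy : ∀ i < m, G.Adj (y i) (y (i + 1)))
    (hR : ∀ i ≤ m, markCol ρ a (x i) = markCol ρ a (y i))
    (hσ : ∀ i < m, x (i + 1) = ρ.σ (x i)) : y m = y 0 := by
  classical
  obtain ⟨hm3, hxadj, hcl, hinj⟩ := hx
  have hσy : ∀ i < m, y (i + 1) = ρ.σ (y i) := fun i hi =>
    rot_follow ρ a ha _ _ _ _ (hxadj i hi) (hy i hi) (hR i hi.le) (hR (i + 1) hi) (hσ i hi)
  have hxi : ∀ i ≤ m, x i = ρ.σ^[i] (x 0) := by
    intro i
    induction i with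
    | zero => intro _; rfl
    | succ i ih => intro hi; rw [hσ i hi, ih (by omega), Function.iterate_succ_apply']
  have hyi : ∀ i ≤ m, y i = ρ.σ^[i] (y 0) := by
    intro i
    induction i with
    | zero => intro _; rfl
    | succ i ih => intro hi; rw [hσy i hi, ih (by omega), Function.iterate_succ_apply']
  have hx0 : G.Adj (x 0) (ρ.σ (x 0)) := by
    rw [← hσ 0 (by omega)]; exact hxadj 0 (by omega)
  have hy0 : G.Adj (y 0) (ρ.σ (y 0)) := by
    rw [← hσy 0 (by omega)]; exact hy 0 (by omega)
  have hposx := ρ.pos_lt _ hx0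
  have hposy := ρ.pos_lt _ hy0
  have hperx := ρ.per _ hx0
  have hpery := ρ.per _ hy0
  set l := ρ.len (x 0) with hl
  set l' := ρ.len (y 0) with hl'
  have hlm : l = m := by
    rcases lt_trichotomy l m with h | h | h
    · have h1 := hxi l h.le
      rw [hperx] at h1
      have := hinj l h 0 (by omega) h1
      omega
    · exact h
    · have h1 := (ρ.iter (x 0) hx0 m).2.2
      rw [← hxi m le_rfl, hcl, ← hl] at h1
      have hmod : (ρ.pos (x 0) + m) % l = ρ.pos (x 0) % l := by
        rw [← h1, Nat.mod_eq_of_lt hposx]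
      have h2 : m ≡ 0 [MOD l] := Nat.ModEq.add_left_cancel' (ρ.pos (x 0))
        (by rw [Nat.ModEq, add_zero]; exact hmod)
      rw [Nat.ModEq, Nat.zero_mod, Nat.mod_eq_of_lt h] at h2
      omega
  have hl2 : 2 ≤ l' := by
    rcases Nat.lt_or_ge l' 2 with h | h
    · exfalso
      have h1 : l' = 1 := by omega
      rw [h1, Function.iterate_one] at hpery
      rw [hpery] at hy0
      exact hy0.ne rfl
    · exact h
  have hmark : ∀ i ≤ m, ((ρ.pos (x i) = 0 ↔ ρ.pos (y i) = 0) ∧
      (ρ.pos (x i) = ρ.len (x i) / 2 ↔ ρ.pos (y i) = ρ.len (y i) / 2) ∧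
      (ρ.len (x i) % 2 = 0 ↔ ρ.len (y i) % 2 = 0)) := by
    intro i hi
    have h := hR i hi
    unfold markCol at h
    simp only [Prod.mk.injEq, decide_eq_decide] at h
    exact ⟨h.2.2.1, h.2.2.2.1, h.2.2.2.2⟩
  have hll : l = l' := by
    apply arith_marks (ρ.pos (x 0)) (ρ.pos (y 0)) l l' hposx hposy (by omega) hl2
    · exact (hmark 0 (Nat.zero_le _)).2.2
    · intro i hi
      have h := (hmark i (by omega)).1
      rw [hxi i (by omega), hyi i (by omega), (ρ.iter _ hx0 i).2.2, (ρ.iter _ hy0 i).2.2] at h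
      exact h
    · intro i hi
      have h := (hmark i (by omega)).2.1
      rw [hxi i (by omega), hyi i (by omega), (ρ.iter _ hx0 i).2.2, (ρ.iter _ hy0 i).2.2,
        (ρ.iter _ hx0 i).2.1, (ρ.iter _ hy0 i).2.1] at h
      exact h
  rw [hyi m le_rfl, ← hlm, hll]
  exact hpery

theorem cons_of_rot (ha : Dist2 G a) : Cons G (fun x y => markCol ρ a x = markCol ρ a y) g := by
  intro m x y hm hmg hx hcl hinj hy _ hR
  have hxc : IsCyc G m x := ⟨hm, hx, hcl, hinj⟩
  rcases ρ.cyc m x hmg hxc with h | h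
  · exact rot_closed ρ a ha m x y hxc hy hR h
  · -- reversed walks
    have hinj' : ∀ i < m, ∀ j < m, x (m - i) = x (m - j) → i = j := by
      intro i hi j hj hij
      rcases Nat.eq_zero_or_pos i with hi0 | hi0
      · rcases Nat.eq_zero_or_pos j with hj0 | hj0
        · omega
        · subst hi0
          rw [Nat.sub_zero, hcl] at hij
          have := hinj 0 (by omega) (m - j) (by omega) hij
          omega
      · rcases Nat.eq_zero_or_pos j with hj0 | hj0
        · subst hj0
          rw [Nat.sub_zero, hcl] at hij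
          have := hinj (m - i) (by omega) 0 (by omega) hij
          omega
        · have := hinj (m - i) (by omega) (m - j) (by omega) hij
          omega
    have hrev : ∀ i < m, m - i = (m - (i + 1)) + 1 := fun i hi => by omega
    have := rot_closed ρ a ha m (fun i => x (m - i)) (fun i => y (m - i))
      ⟨hm, fun i hi => by
          have h1 := (hx (m - (i + 1)) (by omega)).symm
          rw [← hrev i hi] at h1
          exact h1, by simp only [Nat.sub_self, Nat.sub_zero]; exact hcl.symm,
        hinj'⟩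
      (fun i hi => by
        have h1 := (hy (m - (i + 1)) (by omega)).symm
        rw [← hrev i hi] at h1
        exact h1)
      (fun i hi => hR _ (by omega))
      (fun i hi => by
        have h1 := h (m - (i + 1)) (by omega)
        rw [← hrev i hi] at h1
        exact h1)
    simp only [Nat.sub_self, Nat.sub_zero] at this
    exact this.symm

end marks

end Pool.Agent.CayNR
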